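import Pool.Agent.H91.STR.Mic

/-!
# The star in own-point codes

`ph_own`, `pl_own`: the codes of the other orders from the own-point digits. `o_le_d`: the own-point
digits of order `j` from those at the start. `star_law`: two heights, a number which does not drop
between the two records, the other orders few bits: then the own-point digits of order `j` have few
bits given the finer record.
-/

set_option autoImplicit false

namespace Pool.STR91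

open Finset Real Polynomial
open Pool.Agent.H49.Ent Pool.Agent.H32.Dense Pool.STK Pool.KA Pool.KSAT Pool.K2S Pool.PB Pool.GEN
open Pool.T4E Pool.T4P Pool.STR16
open Pool.T4H (RowT)
open Pool.T4C (FI1G)

variable {m J n : ℕ}

/-- The bounded number of bits. -/
noncomputable def cK (n d : ℕ) : ℝ := ((n : ℝ) * (d + 1)) * Real.log (2 * (Kc d : ℕ) + 1)

theorem cK_nonneg (n d : ℕ) : 0 ≤ cK n d := by
  unfold cK
  have : 0 ≤ Real.log (2 * (Kc d : ℕ) + 1) := Real.log_nonneg (by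
    have : (0 : ℝ) ≤ ((Kc d : ℕ) : ℝ) := Nat.cast_nonneg _
    linarith)
  positivity

theorem cK_ge (n d : ℕ) : (n : ℝ) * Real.log (2 * (Kc d : ℕ) + 1) ≤ cK n d := by
  unfold cK
  have h1 : 0 ≤ Real.log (2 * (Kc d : ℕ) + 1) := Real.log_nonneg (by
    have : (0 : ℝ) ≤ ((Kc d : ℕ) : ℝ) := Nat.cast_nonneg _
    linarith)
  refine mul_le_mul_of_nonneg_right ?_ h1
  have h2 : (0 : ℝ) ≤ n := Nat.cast_nonneg _
  have h3 : (0 : ℝ) ≤ d := Nat.cast_nonneg _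
  nlinarith

/-- Finitely many variables with few bits. -/
theorem ch_fin {Ω V : Type} [Fintype Ω] {p : Ω → ℝ} (h0 : ∀ ω, 0 ≤ p ω) {β : Type} (X : ℕ → Ω → β)
    (Z : Ω → V) {e : ℝ} (s : ℕ) (h : ∀ k < s, CH p (X k) Z ≤ e) :
    CH p (fun ω (k : Fin s) => X k ω) Z ≤ s * e := by
  induction s with
  | zero =>
    rw [Nat.cast_zero, zero_mul]
    exact le_of_eq (CH_eq_zero h0 fun ω ω' _ _ _ => funext fun k => k.elim0)
  | succ s ih =>
    have h1 := ih fun k hk => h k (by omega)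
    have h2 := h s (Nat.lt_succ_self s)
    have h3 := CH_subadd h0 (fun ω (k : Fin s) => X k ω) (X s) Z
    have h4 : CH p (fun ω (k : Fin (s + 1)) => X k ω) Z ≤
        CH p (fun ω => ((fun k : Fin s => X k ω), X s ω)) Z := by
      refine CH_mono_left h0 fun ω ω' _ _ hh => ?_
      obtain ⟨h5, -⟩ := Prod.ext_iff.1 hh
      obtain ⟨h6, h7⟩ := Prod.ext_iff.1 h5
      funext k
      rcases Nat.lt_succ_iff_lt_or_eq.1 k.2 with hk | hk
      · exact congrFun h6 ⟨k, hk⟩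
      · show X (k : ℕ) ω = X (k : ℕ) ω'
        rw [hk]
        exact h7
    push_cast
    linarith

/-- **The higher orders at the start** from the own-point digits. -/
theorem ph_own {F : Fam m J} {a d j : ℕ} {P : LnT F → Fin n → Polynomial ℝ} {g : Fin n → ℕ}
    {p : F.Ω → ℝ} (hp : IsLaw p) (hd : ∀ s i, (P s i).natDegree ≤ d) {V : Type} {Z : F.Ω → V}
    {e : ℝ} (he : 0 ≤ e) (hT : ∀ ω ω', 0 < p ω → 0 < p ω' → Z ω = Z ω' → F.T ω = F.T ω')
    (h : ∀ k ≤ d, j < k → CH p (pO P a g k) Z ≤ e) :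
    CH p (fun ω => pH P g j d (slam F a ω)) Z ≤ (d + 1) * e + cK n d := by
  have h0 := hp.nonneg
  obtain ⟨O, hO⟩ : ∃ O : ℕ → F.Ω → Fin n → ℤ, O = fun k ω =>
    if j < k then pO P a g k ω else 0 := ⟨_, rfl⟩
  have h1 : CH p (fun ω (k : Fin (d + 1)) => O k ω) Z ≤ ((d + 1 : ℕ) : ℝ) * e :=
    ch_fin h0 O Z (d + 1) fun k hk => by
      rw [hO]
      by_cases hjk : j < k
      · simp only [if_pos hjk]
        exact h k (by omega) hjk
      · simp only [if_neg hjk]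
        rw [CH_eq_zero h0 fun _ _ _ _ _ => rfl]
        exact he
  have h2 := CH_le_add h0 (fun ω => pH P g j d (slam F a ω)) (fun ω (k : Fin (d + 1)) => O k ω) Z
  have h3 : CH p (fun ω => pH P g j d (slam F a ω))
      (fun ω => ((fun k : Fin (d + 1) => O k ω), Z ω)) ≤ cK n d := by
    -- as integer vectors on pairs
    have h4 := ch_near hp (fun ω (x : Fin n × Fin (d + 1)) => pH P g j d (slam F a ω) x.1 x.2)
      (fun ω => ((fun k : Fin (d + 1) => O k ω), Z ω)) (K := Kc d) (by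
      intro ω ω' hω hω' hh x
      obtain ⟨e1, e2⟩ := Prod.ext_iff.1 hh
      have hTT := hT ω ω' hω hω' e2
      have e1' : ∀ k : Fin (d + 1), O k ω = O k ω' := fun k => congrFun e1 k
      by_cases hjk : j < (x.2 : ℕ)
      · obtain ⟨A, hA⟩ : ∃ A, A = taylor (rho F a ω) (P (slam F a ω) x.1) := ⟨_, rfl⟩
        obtain ⟨B, hB⟩ : ∃ B, B = taylor (rho F a ω) (P (slam F a ω') x.1) := ⟨_, rfl⟩
        have hAd : A.natDegree ≤ d := by rw [hA, natDegree_taylor]; exact hd _ _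
        have hBd : B.natDegree ≤ d := by rw [hB, natDegree_taylor]; exact hd _ _
        have hA' : P (slam F a ω) x.1 = taylor (-rho F a ω) A := by
          rw [hA, taylor_taylor]
          simp
        have hB' : P (slam F a ω') x.1 = taylor (-rho F a ω) B := by
          rw [hB, taylor_taylor]
          simp
        have h1 : ∀ i, (x.2 : ℕ) ≤ i → |(2 : ℝ) ^ (fun _ : ℕ => g x.1) i * A.coeff i -
            2 ^ (fun _ : ℕ => g x.1) i * B.coeff i| ≤ 1 := fun i hi => by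
          by_cases hid : i ≤ d
          · have h2 := congrFun (e1' ⟨i, Nat.lt_succ_of_le hid⟩) x.1
            rw [hO] at h2
            simp only [if_pos (lt_of_lt_of_le hjk hi)] at h2
            unfold pO at h2
            rw [← rho_eq (a := a) hTT, ← hA, ← hB] at h2
            exact fl_near1 h2
          · have e1 := coeff_eq_zero_of_natDegree_lt (p := A) (n := i)
              (lt_of_le_of_lt hAd (by omega))
            have e2 := coeff_eq_zero_of_natDegree_lt (p := B) (n := i)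
              (lt_of_le_of_lt hBd (by omega))
            rw [e1, e2, mul_zero, sub_zero, abs_zero]
            exact zero_le_one
        have hr : |-rho F a ω| ≤ 1 := by rw [abs_neg]; exact rho_abs ω
        have h2 := near_tay hAd hBd hr (G := fun _ => g x.1) monotone_const zero_le_one x.2 h1
        rw [← hA', ← hB'] at h2
        have h3 := fl_near2 h2
        unfold pH
        simp only [if_pos hjk]
        refine cast_le_Kc h3 ?_
        have : (0 : ℝ) ≤ (d + 1) * 2 ^ d := by positivity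
        linarith
      · unfold pH
        simp only [if_neg hjk, sub_self, abs_zero]
        exact Int.natCast_nonneg _)
    have h5 : CH p (fun ω => pH P g j d (slam F a ω))
        (fun ω => ((fun k : Fin (d + 1) => O k ω), Z ω)) ≤
        CH p (fun ω (x : Fin n × Fin (d + 1)) => pH P g j d (slam F a ω) x.1 x.2)
        (fun ω => ((fun k : Fin (d + 1) => O k ω), Z ω)) :=
      CH_mono_left h0 fun ω ω' _ _ hh => funext fun i => funext fun k =>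
        congrFun (Prod.ext_iff.1 hh).1 (i, k)
    refine h5.trans (h4.trans (le_of_eq ?_))
    unfold cK
    rw [Fintype.card_prod, Fintype.card_fin, Fintype.card_fin]
    push_cast
    ring
  push_cast at h1
  linarith

/-- **The lower orders at the own time** from the own-point digits. -/
theorem pl_own {F : Fam m J} {a d j : ℕ} {P : LnT F → Fin n → Polynomial ℝ} {g : Fin n → ℕ}
    {p : F.Ω → ℝ} (hp : IsLaw p) {V : Type} {Z : F.Ω → V}
    {e : ℝ} (he : 0 ≤ e) (h : ∀ k ≤ d, k < j → CH p (pO P a g k) Z ≤ e) :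
    CH p (pL P a g j d) Z ≤ (d + 1) * e := by
  have h0 := hp.nonneg
  obtain ⟨O, hO⟩ : ∃ O : ℕ → F.Ω → Fin n → ℤ, O = fun k ω =>
    if k < j then pO P a g k ω else 0 := ⟨_, rfl⟩
  have h1 : CH p (fun ω (k : Fin (d + 1)) => O k ω) Z ≤ ((d + 1 : ℕ) : ℝ) * e :=
    ch_fin h0 O Z (d + 1) fun k hk => by
      rw [hO]
      by_cases hjk : k < j
      · simp only [if_pos hjk]
        exact h k (by omega) hjk
      · simp only [if_neg hjk]
        rw [CH_eq_zero h0 fun _ _ _ _ _ => rfl]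
        exact he
  have h2 : CH p (pL P a g j d) Z ≤ CH p (fun ω (k : Fin (d + 1)) => O k ω) Z := by
    refine CH_mono_left h0 fun ω ω' _ _ hh => ?_
    have e1 : ∀ k : Fin (d + 1), O k ω = O k ω' := fun k => congrFun (Prod.ext_iff.1 hh).1 k
    funext i k
    have e2 := congrFun (e1 k) i
    rw [hO] at e2
    unfold pL
    by_cases hjk : (k : ℕ) < j
    · simp only [if_pos hjk] at e2 ⊢
      exact e2
    · simp only [if_neg hjk]
  push_cast at h1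
  linarith

/-- **The own-point digits of order `j`** from those at the start of the window. -/
theorem o_le_d {F : Fam m J} {a d q j : ℕ} {P : LnT F → Fin n → Polynomial ℝ} {p : F.Ω → ℝ}
    {g : Fin n → ℕ} {κ' 𝒴 γ : Type} {zb : F.Ω → κ'} {Cy : LnT F → 𝒴}
    {y : F.Ω → γ} {e' e'' : ℝ} (hp : IsLaw p) (hd : ∀ s i, (P s i).natDegree ≤ d)
    (hyT : ∀ ω ω', 0 < p ω → 0 < p ω' → y ω = y ω' → F.T ω = F.T ω' ∧ F.Z ω = F.Z ω')
    (y1 : CH p (fun ω => Cy (slam F a ω)) y ≤ e'')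
    (hb1 : CH p (fun ω => pH P g j d (slam F a ω)) (fun ω => (zb ω, y ω)) ≤ e') :
    CH p (pO P a g j)
        (fun ω => ((fun i => pO P a g j ω i / ((2 ^ q : ℕ) : ℤ)), (zb ω, y ω))) ≤
    CH p (fun ω => pD P g j (slam F a ω)) (fun ω => ((zb ω,
        ((fun i => pD P g j (slam F a ω) i / ((2 ^ q : ℕ) : ℤ)), F.Z ω)),
        (Cy (slam F a ω), F.T ω))) +
      (e' + e'' + 2 * (n * Real.log (2 * (Kc d : ℕ) + 1))) := by
  have h0 := hp.nonneg
  obtain ⟨c, hc⟩ : ∃ c : ℝ, c = n * Real.log (2 * (Kc d : ℕ) + 1) := ⟨_, rfl⟩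
  rw [← hc]
  obtain ⟨D, hD⟩ : ∃ D : F.Ω → Fin n → ℤ, D = fun ω => pD P g j (slam F a ω) := ⟨_, rfl⟩
  obtain ⟨Du, hDu⟩ : ∃ Du : F.Ω → Fin n → ℤ, Du = fun ω i =>
    pD P g j (slam F a ω) i / ((2 ^ q : ℕ) : ℤ) := ⟨_, rfl⟩
  obtain ⟨O, hO⟩ : ∃ O : F.Ω → Fin n → ℤ, O = pO P a g j := ⟨_, rfl⟩
  obtain ⟨Ou, hOu⟩ : ∃ Ou : F.Ω → Fin n → ℤ, Ou = fun ω i =>
    pO P a g j ω i / ((2 ^ q : ℕ) : ℤ) := ⟨_, rfl⟩
  obtain ⟨H, hH⟩ : ∃ H : F.Ω → Fin n → Fin (d + 1) → ℤ, H = fun ω => pH P g j d (slam F a ω) :=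
    ⟨_, rfl⟩
  obtain ⟨C, hC⟩ : ∃ C : F.Ω → 𝒴, C = fun ω => Cy (slam F a ω) := ⟨_, rfl⟩
  have u1 : CH p O (fun ω => (Ou ω, (zb ω, y ω))) ≤
      CH p O (fun ω => (H ω, (Ou ω, (zb ω, y ω)))) + e' :=
    ch_via h0 O H _ ((CH_mono_cond h0 fun ω ω' _ _ h => (Prod.ext_iff.1 h).2).trans (by
      rw [hH]
      exact hb1))
  have u2 : CH p O (fun ω => (H ω, (Ou ω, (zb ω, y ω)))) ≤
      CH p D (fun ω => (H ω, (Ou ω, (zb ω, y ω)))) + c := by
    have h1 := CH_le_add h0 O D (fun ω => (H ω, (Ou ω, (zb ω, y ω))))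
    have h2 : CH p O (fun ω => (D ω, (H ω, (Ou ω, (zb ω, y ω))))) ≤ c := by
      rw [hc, hO]
      refine o_of_d hp hd fun ω ω' hω hω' h => ?_
      rw [hD, hH] at h
      simp only [Prod.mk.injEq] at h
      exact ⟨(hyT ω ω' hω hω' h.2.2.2.2).1, h.2.1, h.1⟩
    linarith
  have u3 : CH p D (fun ω => (H ω, (Ou ω, (zb ω, y ω)))) ≤
      CH p D (fun ω => (Du ω, (zb ω, y ω))) + c := by
    have h1 := ch_via h0 D Du (fun ω => (H ω, (Ou ω, (zb ω, y ω)))) (c := c) (by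
      rw [hc, hDu]
      refine du_of_ou hp hd fun ω ω' hω hω' h => ?_
      rw [hOu, hH] at h
      simp only [Prod.mk.injEq] at h
      exact ⟨(hyT ω ω' hω hω' h.2.2.2).1, h.1, h.2.1⟩)
    refine h1.trans (add_le_add (CH_mono_cond h0 fun ω ω' _ _ h => ?_) le_rfl)
    simp only [Prod.mk.injEq] at h ⊢
    exact ⟨h.1, h.2.2.2.1, h.2.2.2.2⟩
  have u4 : CH p D (fun ω => (Du ω, (zb ω, y ω))) ≤
      CH p D (fun ω => ((zb ω, (Du ω, F.Z ω)), (C ω, F.T ω))) + e'' := by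
    have h1 := ch_via h0 D C (fun ω => (Du ω, (zb ω, y ω))) (c := e'')
      ((CH_mono_cond h0 fun ω ω' _ _ h => (Prod.ext_iff.1 (Prod.ext_iff.1 h).2).2).trans (by
        rw [hC]
        exact y1))
    refine h1.trans (add_le_add (CH_mono_cond h0 fun ω ω' hω hω' h => ?_) le_rfl)
    simp only [Prod.mk.injEq] at h ⊢
    obtain ⟨k1, k2⟩ := hyT ω ω' hω hω' h.2.2.2
    exact ⟨⟨h.2.2.1, h.2.1, k2⟩, h.1, k1⟩
  have u5 : CH p D (fun ω => ((zb ω, (Du ω, F.Z ω)), (C ω, F.T ω))) =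
      CH p (fun ω => pD P g j (slam F a ω)) (fun ω => ((zb ω,
        ((fun i => pD P g j (slam F a ω) i / ((2 ^ q : ℕ) : ℤ)), F.Z ω)),
        (Cy (slam F a ω), F.T ω))) := by
    rw [hD, hDu, hC]
  have u6 : CH p O (fun ω => (Ou ω, (zb ω, y ω))) = CH p (pO P a g j)
        (fun ω => ((fun i => pO P a g j ω i / ((2 ^ q : ℕ) : ℤ)), (zb ω, y ω))) := by
    rw [hO, hOu]
  rw [← u5, ← u6]
  linarith

/-! ### The hypotheses of `few_ev2` in own-point codes -/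

/-- The hypotheses `few` and `mi'` of `few_ev2` / `few_ev1`, and the conversion of the conclusion. -/
theorem star_in {F : Fam m J} {a d q j : ℕ} {P : LnT F → Fin n → Polynomial ℝ} {p : F.Ω → ℝ}
    {g : Fin n → ℕ} {κ κ' 𝒴 γ : Type} {za : LnT F → κ} {zb : F.Ω → κ'} {Cy : LnT F → 𝒴}
    {y : F.Ω → γ} {e : ℝ} (hp : IsLaw p) (ha : a ≤ J) (he : 0 ≤ e)
    (hd : ∀ s i, (P s i).natDegree ≤ d)
    (full : J * Real.log 2 - e ≤ CH p F.T (fun ω => (F.l ω, F.Z ω)))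
    (hyT : ∀ ω ω', 0 < p ω → 0 < p ω' → y ω = y ω' → F.T ω = F.T ω' ∧ F.Z ω = F.Z ω')
    (y1 : CH p (fun ω => Cy (slam F a ω)) y ≤ e)
    (y2 : CH p y (fun ω => (Cy (slam F a ω), (F.T ω, F.Z ω))) ≤ e)
    (ho : ∀ k ≤ d, k ≠ j → CH p (pO P a g k) (fun ω => (zb ω, y ω)) ≤ e)
    (ha1 : ∀ k ≤ d, j < k → CH p (pO P a g k) (fun ω => (za (slam F a ω), y ω)) ≤ e)
    (hup : CH p (fun ω i => pO P a g j ω i / ((2 ^ q : ℕ) : ℤ)) (fun ω => (zb ω, y ω)) ≤ e)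
    (num : CH p (pO P a g j)
        (fun ω => ((fun i => pO P a g j ω i / ((2 ^ q : ℕ) : ℤ)), (za (slam F a ω), y ω))) ≤
      CH p (pO P a g j)
        (fun ω => ((fun i => pO P a g j ω i / ((2 ^ q : ℕ) : ℤ)), (zb ω, y ω))) + e) :
    CH p (pK P a g j d q) (fun ω => ((zb ω,
        ((fun i => pD P g j (slam F a ω) i / ((2 ^ q : ℕ) : ℤ)), F.Z ω)),
        (Cy (slam F a ω), F.T ω))) ≤ (2 * d + 4) * e + cK n d ∧
    CH p (fun ω => pD P g j (slam F a ω)) (fun ω => (Cy (slam F a ω), (za (slam F a ω),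
        ((fun i => pD P g j (slam F a ω) i / ((2 ^ q : ℕ) : ℤ)), (slam F a ω).2)))) -
      ((2 * d + 6) * e + 6 * cK n d) ≤
    CH p (fun ω => pD P g j (slam F a ω)) (fun ω => ((zb ω,
        ((fun i => pD P g j (slam F a ω) i / ((2 ^ q : ℕ) : ℤ)), F.Z ω)),
        (Cy (slam F a ω), F.T ω))) ∧
    CH p (pO P a g j) (fun ω => (zb ω, y ω)) ≤
      CH p (fun ω => pD P g j (slam F a ω)) (fun ω => ((zb ω,
        ((fun i => pD P g j (slam F a ω) i / ((2 ^ q : ℕ) : ℤ)), F.Z ω)),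
        (Cy (slam F a ω), F.T ω))) + ((d + 3) * e + 3 * cK n d) := by
  have h0 := hp.nonneg
  have hc := cK_ge n d
  have hc0 := cK_nonneg n d
  have hb := ph_own (P := P) (a := a) (g := g) (j := j) (Z := fun ω => (zb ω, y ω)) hp hd he
    (fun ω ω' hω hω' h => (hyT ω ω' hω hω' (Prod.ext_iff.1 h).2).1)
    (fun k hk hjk => ho k hk (by omega))
  have haa := ph_own (P := P) (a := a) (g := g) (j := j) (Z := fun ω => (za (slam F a ω), y ω)) hp
    hd he (fun ω ω' hω hω' h => (hyT ω ω' hω hω' (Prod.ext_iff.1 h).2).1) ha1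
  have hl := pl_own (P := P) (a := a) (g := g) (j := j) (d := d) (Z := fun ω => (zb ω, y ω)) hp he
    (fun k hk hjk => ho k hk (by omega))
  refine ⟨?_, ?_, ?_⟩
  · obtain ⟨K, hK⟩ : ∃ K : F.Ω → (κ' × ((Fin n → ℤ) × F.ζ)) × (𝒴 × ℕ), K = fun ω => ((zb ω,
        ((fun i => pD P g j (slam F a ω) i / ((2 ^ q : ℕ) : ℤ)), F.Z ω)),
        (Cy (slam F a ω), F.T ω)) := ⟨_, rfl⟩
    have k1 : CH p (pK P a g j d q) K ≤
        CH p (fun ω => pH P g j d (slam F a ω)) K + CH p (pL P a g j d) K := by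
      refine le_trans ?_ (CH_subadd h0 (fun ω => pH P g j d (slam F a ω)) (pL P a g j d) K)
      refine CH_mono_left h0 fun ω ω' _ _ hh => ?_
      obtain ⟨h1, h2⟩ := Prod.ext_iff.1 hh
      obtain ⟨h3, h4⟩ := Prod.ext_iff.1 h1
      dsimp only at h2 h3 h4
      rw [hK] at h2
      simp only [Prod.mk.injEq] at h2
      unfold pK
      exact Prod.ext h3 (Prod.ext h4 h2.1.2.1)
    have k2 : ∀ {B : Type} (X : F.Ω → B), CH p X K ≤ CH p X (fun ω => (zb ω, y ω)) + e := by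
      intro B X
      have h1 := ch_via h0 X y K (c := e) ((CH_mono_cond h0 fun ω ω' _ _ hh => by
        rw [hK] at hh
        simp only [Prod.mk.injEq] at hh ⊢
        exact ⟨hh.2.1, hh.2.2, hh.1.2.2⟩).trans y2)
      refine h1.trans (add_le_add (CH_mono_cond h0 fun ω ω' _ _ hh => ?_) le_rfl)
      rw [hK] at hh
      simp only [Prod.mk.injEq] at hh ⊢
      exact ⟨hh.2.1.1, hh.1⟩
    have k3 := k2 (fun ω => pH P g j d (slam F a ω))
    have k4 := k2 (pL P a g j d)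
    rw [← hK]
    linarith
  · have h1 := mi_cv (P := P) (g := g) (j := j) (q := q) (Cy := Cy) hp ha hd full hyT y1 y2 haa hb
      num
    linarith
  · have h1 := o_le_d (P := P) (g := g) (j := j) (q := q) (Cy := Cy) hp hd hyT y1 hb
    have h2 := ch_via h0 (pO P a g j) (fun ω i => pO P a g j ω i / ((2 ^ q : ℕ) : ℤ))
      (fun ω => (zb ω, y ω)) hup
    linarith

/-! ### The theorems -/

/-- **Two heights.** -/
theorem star_law {h δ : ℝ} {j : ℕ} (h0 : 0 < h) (h1 : h ≤ 1) (hj : 1 ≤ j) (hδ : 0 < δ) (d : ℕ) :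
    ∃ (a₁ : ℕ) (κ₀ ϖ : ℝ), 1 ≤ a₁ ∧ 0 < κ₀ ∧ 0 < ϖ ∧ ∃ X₀ : ℕ,
    ∀ {m J : ℕ} {F : Fam m J} {a : ℕ} {X : F.Ω → Fin 2 → ℝ} {P : LnT F → Fin 2 → Polynomial ℝ}
      {κ κ' 𝒴 γ υ Φ : Type} {Fp : F.Ω → Φ} {z : Φ → Fin 2 → ℤ} {p : F.Ω → ℝ} {g : Fin 2 → ℕ}
      {q : ℕ} {za : LnT F → κ} {zb : F.Ω → κ'} {Cy : LnT F → 𝒴} {y : F.Ω → γ} {Yb : Φ → υ},
    IsLaw p → a ≤ J → q ≤ J - a → X₀ ≤ q →
    (∀ s i, (P s i).natDegree ≤ d) →
    (∀ ω, 0 < p ω → ∀ i, X ω i = (P (slam F a ω) i).eval (rho F a ω)) →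
    (∀ ω, 0 < p ω → ∀ i, |(z (Fp ω) i : ℝ) - 2 ^ g i * X ω i| ≤ 2) →
    (∀ ω ω', 0 < p ω → 0 < p ω' → zb ω = zb ω' → F.T ω = F.T ω' →
      Cy (slam F a ω) = Cy (slam F a ω') → za (slam F a ω) = za (slam F a ω')) →
    (∀ ω ω', 0 < p ω → 0 < p ω' → vtf F a ω = vtf F a ω' →
      Cy (slam F a ω) = Cy (slam F a ω') → za (slam F a ω) = za (slam F a ω') →
      Yb (Fp ω) = Yb (Fp ω')) →
    J * Real.log 2 - κ₀ * q ≤ CH p F.T (fun ω => (F.l ω, F.Z ω)) →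
    (∀ ω ω', 0 < p ω → 0 < p ω' → y ω = y ω' → F.T ω = F.T ω' ∧ F.Z ω = F.Z ω') →
    CH p (fun ω => Cy (slam F a ω)) y ≤ κ₀ * q →
    CH p y (fun ω => (Cy (slam F a ω), (F.T ω, F.Z ω))) ≤ κ₀ * q →
    (∀ k ≤ d, k ≠ j → CH p (pO P a g k) (fun ω => (zb ω, y ω)) ≤ κ₀ * q) →
    (∀ k ≤ d, j < k → CH p (pO P a g k) (fun ω => (za (slam F a ω), y ω)) ≤ κ₀ * q) →
    CH p (fun ω i => pO P a g j ω i / ((2 ^ q : ℕ) : ℤ)) (fun ω => (zb ω, y ω)) ≤ κ₀ * q →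
    CH p (pO P a g j)
        (fun ω => ((fun i => pO P a g j ω i / ((2 ^ q : ℕ) : ℤ)), (za (slam F a ω), y ω))) ≤
      CH p (pO P a g j)
        (fun ω => ((fun i => pO P a g j ω i / ((2 ^ q : ℕ) : ℤ)), (zb ω, y ω))) + κ₀ * q →
    (∀ l ≤ q, RowT p (fun ω => z (Fp ω)) (fun ω => Yb (Fp ω)) l
      ((2 - h) * l * Real.log 2 + κ₀ * q) ϖ) →
    (∀ u, a₁ * u ≤ q → FI1G (N := 1) p (slam F a) Fp (fun ω => z (Fp ω)) (fun ω => Yb (Fp ω)) u a₁ 0
      (u * Real.log 2 - κ₀ * q) ϖ) →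
    CH p (pO P a g j) (fun ω => (zb ω, y ω)) ≤ δ * q := by
  obtain ⟨a₁, κ₁, ϖ, ha₁, hκ₁, hϖ, X₁, H⟩ := few_ev2 h0 h1 hj (half_pos hδ) d
  obtain ⟨κ₀, hκ₀⟩ : ∃ κ₀ : ℝ, κ₀ = min (κ₁ / (2 * (2 * d + 6))) (δ / (4 * (d + 3))) := ⟨_, rfl⟩
  have d0 : (0 : ℝ) ≤ d := Nat.cast_nonneg d
  have k0 : 0 < κ₀ := by rw [hκ₀]; exact lt_min (by positivity) (by positivity)
  have k1 : (2 * d + 6) * κ₀ ≤ κ₁ / 2 := by
    have h2 : κ₀ ≤ κ₁ / (2 * (2 * d + 6)) := by rw [hκ₀]; exact min_le_left _ _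
    rw [le_div_iff₀ (by positivity)] at h2
    linarith
  have k2 : (d + 3) * κ₀ ≤ δ / 4 := by
    have h2 : κ₀ ≤ δ / (4 * (d + 3)) := by rw [hκ₀]; exact min_le_right _ _
    rw [le_div_iff₀ (by positivity)] at h2
    linarith
  have k3 : κ₀ ≤ κ₁ := by nlinarith
  have hc0 := cK_nonneg 2 d
  obtain ⟨X₂, hX₂⟩ := exists_nat_ge (6 * cK 2 d / (κ₁ / 2))
  obtain ⟨X₃, hX₃⟩ := exists_nat_ge (3 * cK 2 d / (δ / 4))
  refine ⟨a₁, κ₀, ϖ, ha₁, k0, hϖ, max X₁ (max X₂ X₃), ?_⟩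
  intro m J F a X P κ κ' 𝒴 γ υ Φ Fp z p g q za zb Cy y Yb hp ha hq hX0 hd hX hz hza hYb full hyT y1 y2
    ho ha1 hup num row img
  have hq0 : (0 : ℝ) ≤ q := Nat.cast_nonneg q
  have c1 : 6 * cK 2 d ≤ κ₁ / 2 * q := by
    have h2 : (X₂ : ℝ) ≤ q := by
      exact_mod_cast ((le_max_left _ _).trans (le_max_right X₁ _)).trans hX0
    have h3 := hX₂.trans h2
    rw [div_le_iff₀ (half_pos hκ₁)] at h3
    linarith
  have c2 : 3 * cK 2 d ≤ δ / 4 * q := by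
    have h2 : (X₃ : ℝ) ≤ q := by
      exact_mod_cast ((le_max_right _ _).trans (le_max_right X₁ _)).trans hX0
    have h3 := hX₃.trans h2
    rw [div_le_iff₀ (by positivity)] at h3
    linarith
  have m1 := mul_le_mul_of_nonneg_right k1 hq0
  have m2 := mul_le_mul_of_nonneg_right k2 hq0
  have m3 := mul_le_mul_of_nonneg_right k3 hq0
  have m4 : 0 ≤ κ₀ * q := by positivity
  have m5 : 0 ≤ (d : ℝ) * (κ₀ * q) := by positivity
  obtain ⟨s1, s2, s3⟩ := star_in (P := P) (g := g) (j := j) (q := q) (Cy := Cy) (za := za)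
    (zb := zb) (y := y) (e := κ₀ * q) hp ha m4 hd full hyT y1 y2 ho ha1 hup num
  have s4 : CH p (fun ω => pD P g j (slam F a ω)) (fun ω => (pU P g j q (slam F a ω),
      (Cy (slam F a ω), (za (slam F a ω),
        ((fun i => pD P g j (slam F a ω) i / ((2 ^ q : ℕ) : ℤ)), (slam F a ω).2))))) ≤
      CH p (fun ω => pD P g j (slam F a ω)) (fun ω => (Cy (slam F a ω), (za (slam F a ω),
        ((fun i => pD P g j (slam F a ω) i / ((2 ^ q : ℕ) : ℤ)), (slam F a ω).2)))) :=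
    CH_mono_cond hp.nonneg fun _ _ _ _ hh => (Prod.ext_iff.1 hh).2
  have h2 := H (Kb := fun ω => (zb ω,
        ((fun i => pD P g j (slam F a ω) i / ((2 ^ q : ℕ) : ℤ)), F.Z ω))) (Cy := Cy)
    (Ka := fun s => (za s, ((fun i => pD P g j s i / ((2 ^ q : ℕ) : ℤ)), s.2))) (Yb := Yb)
    hp ha hq ((le_max_left _ _).trans hX0) hd hX hz
    (fun ω ω' hω hω' e1 e2 e3 => by
      simp only [Prod.mk.injEq] at e1 ⊢
      refine ⟨hza ω ω' hω hω' e1.1 e2 e3, e1.2.1, ?_⟩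
      show (F.Z ω, F.T1 a ω) = (F.Z ω', F.T1 a ω')
      have h4 : F.T1 a ω = F.T1 a ω' := by
        show F.T ω / 2 ^ (J - a) = F.T ω' / 2 ^ (J - a)
        rw [e2]
      rw [h4, e1.2.2])
    (fun ω ω' hω hω' e1 e2 e3 => by
      simp only [Prod.mk.injEq] at e3
      exact hYb ω ω' hω hω' e1 e2 e3.1)
    (by linarith) (by linarith) (by linarith)
    (fun l hl => RowT.up (row l hl) (by linarith))
    (fun u hu => by
      intro j' kL kP ka E d1 d2 d3 i hi G' f1 f2 f3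
      have h4 := img u hu j' kL kP ka E d1 d2 d3 i hi G' f1 f2 f3
      linarith)
  linarith

/-- **One height.** -/
theorem star_law1 {h δ : ℝ} {j : ℕ} (h0 : 0 < h) (h1 : h ≤ 1) (hj : 1 ≤ j) (hδ : 0 < δ) (d : ℕ) :
    ∃ κ₀ ϖ : ℝ, 0 < κ₀ ∧ 0 < ϖ ∧ ∃ X₀ : ℕ,
    ∀ {m J : ℕ} {F : Fam m J} {a : ℕ} {X : F.Ω → Fin 1 → ℝ} {P : LnT F → Fin 1 → Polynomial ℝ}
      {κ κ' 𝒴 γ υ Φ : Type} {Fp : F.Ω → Φ} {z : Φ → Fin 1 → ℤ} {p : F.Ω → ℝ} {g : Fin 1 → ℕ}
      {q : ℕ} {za : LnT F → κ} {zb : F.Ω → κ'} {Cy : LnT F → 𝒴} {y : F.Ω → γ} {Yb : Φ → υ},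
    IsLaw p → a ≤ J → q ≤ J - a → X₀ ≤ q →
    (∀ s i, (P s i).natDegree ≤ d) →
    (∀ ω, 0 < p ω → ∀ i, X ω i = (P (slam F a ω) i).eval (rho F a ω)) →
    (∀ ω, 0 < p ω → ∀ i, |(z (Fp ω) i : ℝ) - 2 ^ g i * X ω i| ≤ 2) →
    (∀ ω ω', 0 < p ω → 0 < p ω' → zb ω = zb ω' → F.T ω = F.T ω' →
      Cy (slam F a ω) = Cy (slam F a ω') → za (slam F a ω) = za (slam F a ω')) →
    (∀ ω ω', 0 < p ω → 0 < p ω' → vtf F a ω = vtf F a ω' →
      Cy (slam F a ω) = Cy (slam F a ω') → za (slam F a ω) = za (slam F a ω') →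
      Yb (Fp ω) = Yb (Fp ω')) →
    J * Real.log 2 - κ₀ * q ≤ CH p F.T (fun ω => (F.l ω, F.Z ω)) →
    (∀ ω ω', 0 < p ω → 0 < p ω' → y ω = y ω' → F.T ω = F.T ω' ∧ F.Z ω = F.Z ω') →
    CH p (fun ω => Cy (slam F a ω)) y ≤ κ₀ * q →
    CH p y (fun ω => (Cy (slam F a ω), (F.T ω, F.Z ω))) ≤ κ₀ * q →
    (∀ k ≤ d, k ≠ j → CH p (pO P a g k) (fun ω => (zb ω, y ω)) ≤ κ₀ * q) →
    (∀ k ≤ d, j < k → CH p (pO P a g k) (fun ω => (za (slam F a ω), y ω)) ≤ κ₀ * q) →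
    CH p (fun ω i => pO P a g j ω i / ((2 ^ q : ℕ) : ℤ)) (fun ω => (zb ω, y ω)) ≤ κ₀ * q →
    CH p (pO P a g j)
        (fun ω => ((fun i => pO P a g j ω i / ((2 ^ q : ℕ) : ℤ)), (za (slam F a ω), y ω))) ≤
      CH p (pO P a g j)
        (fun ω => ((fun i => pO P a g j ω i / ((2 ^ q : ℕ) : ℤ)), (zb ω, y ω))) + κ₀ * q →
    (∀ l ≤ q, RowT p (fun ω => z (Fp ω)) (fun ω => Yb (Fp ω)) l
      ((1 - h) * l * Real.log 2 + κ₀ * q) ϖ) →
    CH p (pO P a g j) (fun ω => (zb ω, y ω)) ≤ δ * q := by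
  obtain ⟨κ₁, ϖ, hκ₁, hϖ, X₁, H⟩ := few_ev1 h0 h1 hj (half_pos hδ) d
  obtain ⟨κ₀, hκ₀⟩ : ∃ κ₀ : ℝ, κ₀ = min (κ₁ / (2 * (2 * d + 6))) (δ / (4 * (d + 3))) := ⟨_, rfl⟩
  have d0 : (0 : ℝ) ≤ d := Nat.cast_nonneg d
  have k0 : 0 < κ₀ := by rw [hκ₀]; exact lt_min (by positivity) (by positivity)
  have k1 : (2 * d + 6) * κ₀ ≤ κ₁ / 2 := by
    have h2 : κ₀ ≤ κ₁ / (2 * (2 * d + 6)) := by rw [hκ₀]; exact min_le_left _ _
    rw [le_div_iff₀ (by positivity)] at h2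
    linarith
  have k2 : (d + 3) * κ₀ ≤ δ / 4 := by
    have h2 : κ₀ ≤ δ / (4 * (d + 3)) := by rw [hκ₀]; exact min_le_right _ _
    rw [le_div_iff₀ (by positivity)] at h2
    linarith
  have k3 : κ₀ ≤ κ₁ := by nlinarith
  have hc0 := cK_nonneg 1 d
  obtain ⟨X₂, hX₂⟩ := exists_nat_ge (6 * cK 1 d / (κ₁ / 2))
  obtain ⟨X₃, hX₃⟩ := exists_nat_ge (3 * cK 1 d / (δ / 4))
  refine ⟨κ₀, ϖ, k0, hϖ, max X₁ (max X₂ X₃), ?_⟩
  intro m J F a X P κ κ' 𝒴 γ υ Φ Fp z p g q za zb Cy y Yb hp ha hq hX0 hd hX hz hza hYb full hyT y1 y2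
    ho ha1 hup num row
  have hq0 : (0 : ℝ) ≤ q := Nat.cast_nonneg q
  have c1 : 6 * cK 1 d ≤ κ₁ / 2 * q := by
    have h2 : (X₂ : ℝ) ≤ q := by
      exact_mod_cast ((le_max_left _ _).trans (le_max_right X₁ _)).trans hX0
    have h3 := hX₂.trans h2
    rw [div_le_iff₀ (half_pos hκ₁)] at h3
    linarith
  have c2 : 3 * cK 1 d ≤ δ / 4 * q := by
    have h2 : (X₃ : ℝ) ≤ q := by
      exact_mod_cast ((le_max_right _ _).trans (le_max_right X₁ _)).trans hX0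
    have h3 := hX₃.trans h2
    rw [div_le_iff₀ (by positivity)] at h3
    linarith
  have m1 := mul_le_mul_of_nonneg_right k1 hq0
  have m2 := mul_le_mul_of_nonneg_right k2 hq0
  have m3 := mul_le_mul_of_nonneg_right k3 hq0
  have m4 : 0 ≤ κ₀ * q := by positivity
  have m5 : 0 ≤ (d : ℝ) * (κ₀ * q) := by positivity
  obtain ⟨s1, s2, s3⟩ := star_in (P := P) (g := g) (j := j) (q := q) (Cy := Cy) (za := za)
    (zb := zb) (y := y) (e := κ₀ * q) hp ha m4 hd full hyT y1 y2 ho ha1 hup num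
  have s4 : CH p (fun ω => pD P g j (slam F a ω)) (fun ω => (pU P g j q (slam F a ω),
      (Cy (slam F a ω), (za (slam F a ω),
        ((fun i => pD P g j (slam F a ω) i / ((2 ^ q : ℕ) : ℤ)), (slam F a ω).2))))) ≤
      CH p (fun ω => pD P g j (slam F a ω)) (fun ω => (Cy (slam F a ω), (za (slam F a ω),
        ((fun i => pD P g j (slam F a ω) i / ((2 ^ q : ℕ) : ℤ)), (slam F a ω).2)))) :=
    CH_mono_cond hp.nonneg fun _ _ _ _ hh => (Prod.ext_iff.1 hh).2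
  have h2 := H (Kb := fun ω => (zb ω,
        ((fun i => pD P g j (slam F a ω) i / ((2 ^ q : ℕ) : ℤ)), F.Z ω))) (Cy := Cy)
    (Ka := fun s => (za s, ((fun i => pD P g j s i / ((2 ^ q : ℕ) : ℤ)), s.2))) (Yb := Yb)
    hp ha hq ((le_max_left _ _).trans hX0) hd hX hz
    (fun ω ω' hω hω' e1 e2 e3 => by
      simp only [Prod.mk.injEq] at e1 ⊢
      refine ⟨hza ω ω' hω hω' e1.1 e2 e3, e1.2.1, ?_⟩
      show (F.Z ω, F.T1 a ω) = (F.Z ω', F.T1 a ω')
      have h4 : F.T1 a ω = F.T1 a ω' := by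
        show F.T ω / 2 ^ (J - a) = F.T ω' / 2 ^ (J - a)
        rw [e2]
      rw [h4, e1.2.2])
    (fun ω ω' hω hω' e1 e2 e3 => by
      simp only [Prod.mk.injEq] at e3
      exact hYb ω ω' hω hω' e1 e2 e3.1)
    (by linarith) (by linarith) (by linarith)
    (fun l hl => RowT.up (row l hl) (by linarith))
  linarith

end Pool.STR91
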