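import Pool.Agent.H62.T4.Num4

/-!
# The numbers of the digits of plain functions

`q1 w`: the quantity with the only member `w`. `dg v e`: the digits `⌊2 ^ e v⌋`. `FwN`: few bits.
`far_num`: the digits of `v` at precisions proportional to the windows of a box: on a sub-box of
windows the digits between two windows `x j ≤ x l` given the record of a window `x i ≤ x j` have no
more bits than given the record of `x j`, up to a small multiple of the step. `far_pig`: one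
quantity at the windows `t, t + X, .., t + n X`.
-/

set_option autoImplicit false

namespace Pool.STR91

open Finset Real
open Pool.Agent.H49.Ent Pool.Agent.H32.Dense Pool.STK Pool.KA Pool.KSAT Pool.K2S Pool.PB Pool.S6C
open Pool.GEN Pool.RCD Pool.LA91 Pool.OWN83 Pool.T462
open Pool.OWN68 (cl2_vg)

variable {m : ℕ}

/-- **The quantity with one member.** -/
def q1 {U : Type} (w : ∀ (J : ℕ) (F : Fam m J), F.Ω → U) : Qt m U where
  P := fun _ _ J F _ u => u = w J F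
  sub := fun _ h => h
  mono := fun _ _ h => h

/-- **At most `δ` bits** given the record and `y`. -/
def FwN {U : Type} {α β γ : ∀ J : ℕ, Fam m J → Type} (S : PCl m)
    (f : ∀ (J : ℕ) (F : Fam m J), F.Ω → α J F) (g : ∀ (J : ℕ) (F : Fam m J), F.Ω → β J F)
    (y : ∀ (J : ℕ) (F : Fam m J), F.Ω → γ J F) (w : ∀ (J : ℕ) (F : Fam m J), F.Ω → U)
    (δ : ℝ) : Prop :=
  ∀ h : ℝ, 0 < h → Bas S (fun J F A => ∃ (V : Type) (z : F.Ω → V), Cl2 (f J F) (g J F) A z ∧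
    CH (Pool.Agent.H49.Ent.cond F.p A True) (w J F) (fun ω => (z ω, y J F ω)) ≤ (δ + h) * J)

/-- **The digits.** -/
noncomputable def dg {ι : Type} (v : ∀ (J : ℕ) (F : Fam m J), F.Ω → ι → ℝ) (e : ℕ → ℕ)
    (J : ℕ) (F : Fam m J) (ω : F.Ω) (i : ι) : ℤ := ⌊(2 : ℝ) ^ e J * v J F ω i⌋

/-- The precision `c x` for the window `x`. -/
noncomputable def pr (c x : ℝ) (J : ℕ) : ℕ := ⌊c * x * J⌋₊

section

variable {U : Type} {α β γ : ∀ J : ℕ, Fam m J → Type}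
  {f : ∀ (J : ℕ) (F : Fam m J), F.Ω → α J F} {g : ∀ (J : ℕ) (F : Fam m J), F.Ω → β J F}
  {y : ∀ (J : ℕ) (F : Fam m J), F.Ω → γ J F} {S : PCl m}

theorem FwN.few {w : ∀ (J : ℕ) (F : Fam m J), F.Ω → U} {δ : ℝ} (h : FwN S f g y w δ) :
    FewN S f g y (q1 w) δ := by
  intro e he
  refine ⟨1, one_pos, fun _ => Bas.mono 0 (h e he) ?_⟩
  rintro J - F A h1 u rfl
  exact h1

theorem fwN_iff {w : ∀ (J : ℕ) (F : Fam m J), F.Ω → U} {δ : ℝ} :
    FewN S f g y (q1 w) δ ↔ FwN S f g y w δ := by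
  refine ⟨fun h e he => ?_, fun h => h.few⟩
  obtain ⟨e₀, -, h1⟩ := h e he
  exact Bas.mono 0 (h1 0) fun J _ F A h2 => h2 _ rfl

theorem FwN.sub {S' : PCl m} (hs : ∀ (τ : ℝ) (J : ℕ) (F : Fam m J) (A : F.Ω → Prop),
    S'.St τ J F A → S.St τ J F A) {w : ∀ (J : ℕ) (F : Fam m J), F.Ω → U} {δ : ℝ}
    (h : FwN S f g y w δ) : FwN S' f g y w δ := fun e he => (h e he).sub hs

/-- A function which is a function of another one. -/
theorem few_fn {U' : Type} {w : ∀ (J : ℕ) (F : Fam m J), F.Ω → U}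
    {w' : ∀ (J : ℕ) (F : Fam m J), F.Ω → U'}
    (hpos : ∀ (τ : ℝ) (J : ℕ) (F : Fam m J) (A : F.Ω → Prop), S.St τ J F A → 0 < Pe F.p A)
    (h : ∀ (J : ℕ) (F : Fam m J), ∃ φ : U → U', ∀ ω, w' J F ω = φ (w J F ω)) :
    Few S f g y (q1 w) (q1 w') := by
  intro e he
  refine ⟨1, one_pos, fun _ => Bas.mono 0 (pos_bas hpos) ?_⟩
  rintro J - F A hA u u' rfl rfl
  obtain ⟨φ, hφ⟩ := h J F
  refine ⟨Unit, fun _ => (), ⟨⟨fun _ => (), fun _ _ => rfl⟩, fun _ => (), fun _ _ => rfl⟩, ?_⟩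
  have h1 : CH (Pool.Agent.H49.Ent.cond F.p A True) (w' J F)
      (fun ω => (w J F ω, ((), y J F ω))) ≤ 0 := by
    refine le_of_eq (CH_eq_zero (isLaw_cond F.isLaw hA).nonneg fun ω ω' _ _ h2 => ?_)
    rw [hφ, hφ]
    exact congrArg φ (Prod.ext_iff.1 h2).1
  have h2 : 0 ≤ e * (J : ℝ) := by positivity
  linarith

theorem floor_sub_le {a b : ℝ} (h : a ≤ b) : ((⌊b⌋₊ : ℕ) : ℝ) - ⌊a⌋₊ ≤ b - a + 1 := by
  rcases le_total 0 b with hb | hb
  · have h1 := Nat.floor_le hb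
    have h2 := Nat.lt_floor_add_one a
    linarith
  · rw [Nat.floor_of_nonpos hb, Nat.floor_of_nonpos (h.trans hb)]
    push_cast
    linarith

theorem pr_mono {c x x' : ℝ} (hc : 0 ≤ c) (h : x ≤ x') (J : ℕ) : pr c x J ≤ pr c x' J :=
  Nat.floor_le_floor (by gcongr)

theorem pr_sub {c x x' : ℝ} (hc : 0 ≤ c) (h : x ≤ x') (J : ℕ) :
    ((pr c x' J - pr c x J : ℕ) : ℝ) ≤ c * (x' - x) * J + 1 := by
  rw [Nat.cast_sub (pr_mono hc h J)]
  have h1 : c * x * (J : ℝ) ≤ c * x' * J := by gcongr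
  have h2 := floor_sub_le h1
  unfold pr
  linarith

variable {ι : Type}

/-- The upper digits. -/
theorem dg_div (v : ∀ (J : ℕ) (F : Fam m J), F.Ω → ι → ℝ) {e e' : ℕ → ℕ} {J : ℕ} (h : e J ≤ e' J)
    (F : Fam m J) (ω : F.Ω) (i : ι) :
    dg v e J F ω i = dg v e' J F ω i / ((2 ^ (e' J - e J) : ℕ) : ℤ) := by
  unfold dg
  rw [← Int.floor_div_natCast]
  congr 1
  have h1 : (2 : ℝ) ^ e' J = 2 ^ e J * 2 ^ (e' J - e J) := by
    rw [← pow_add]
    congr 1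
    omega
  push_cast
  rw [h1]
  field_simp

theorem dg_fn (v : ∀ (J : ℕ) (F : Fam m J), F.Ω → ι → ℝ) {e e' : ℕ → ℕ} {J : ℕ} (h : e J ≤ e' J)
    (F : Fam m J) : ∃ φ : (ι → ℤ) → ι → ℤ, ∀ ω, dg v e J F ω = φ (dg v e' J F ω) :=
  ⟨fun a i => a i / ((2 ^ (e' J - e J) : ℕ) : ℤ), fun ω => funext fun i => dg_div v h F ω i⟩

/-- The digits given the upper digits. -/
theorem dg_ch [Fintype ι] (v : ∀ (J : ℕ) (F : Fam m J), F.Ω → ι → ℝ) {e e' : ℕ → ℕ} {J : ℕ}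
    (h : e J ≤ e' J) (F : Fam m J) {p : F.Ω → ℝ} (hp : IsLaw p) {T : Type} (Z : F.Ω → T) :
    CH p (dg v e' J F) (fun ω => (dg v e J F ω, Z ω)) ≤
      Fintype.card ι * (((e' J - e J : ℕ) : ℝ) * Real.log 2) := by
  classical
  obtain ⟨d, hd⟩ : ∃ d, d = e' J - e J := ⟨_, rfl⟩
  rw [← hd]
  refine (CH_le_card hp.nonneg hp.sum_one _ _ (fun z => Fintype.piFinset fun i =>
    Finset.Ico (z.1 i * ((2 ^ d : ℕ) : ℤ)) (z.1 i * ((2 ^ d : ℕ) : ℤ) + ((2 ^ d : ℕ) : ℤ)))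
    fun ω _ => ?_).trans ?_
  · rw [Fintype.mem_piFinset]
    intro i
    rw [Finset.mem_Ico]
    show dg v e J F ω i * ((2 ^ d : ℕ) : ℤ) ≤ dg v e' J F ω i ∧
      dg v e' J F ω i < dg v e J F ω i * ((2 ^ d : ℕ) : ℤ) + ((2 ^ d : ℕ) : ℤ)
    rw [dg_div v h F ω i, ← hd]
    have pm : (0 : ℤ) < ((2 ^ d : ℕ) : ℤ) := by positivity
    have h1 := Int.mul_ediv_add_emod (dg v e' J F ω i) ((2 ^ d : ℕ) : ℤ)
    have h2 := Int.emod_nonneg (dg v e' J F ω i) pm.ne'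
    have h3 := Int.emod_lt_of_pos (dg v e' J F ω i) pm
    have h4 := mul_comm (((2 ^ d : ℕ) : ℤ)) (dg v e' J F ω i / ((2 ^ d : ℕ) : ℤ))
    constructor <;> linarith
  · have h1 : ∀ z : (ι → ℤ) × T, ((Fintype.piFinset fun i =>
        Finset.Ico (z.1 i * ((2 ^ d : ℕ) : ℤ)) (z.1 i * ((2 ^ d : ℕ) : ℤ) + ((2 ^ d : ℕ) : ℤ))).card : ℝ) =
        (2 ^ d) ^ Fintype.card ι := by
      intro z
      rw [Fintype.card_piFinset]
      have h2 : ∀ i ∈ (Finset.univ : Finset ι), (Finset.Ico (z.1 i * ((2 ^ d : ℕ) : ℤ))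
          (z.1 i * ((2 ^ d : ℕ) : ℤ) + ((2 ^ d : ℕ) : ℤ))).card = 2 ^ d := by
        intro i _
        rw [Int.card_Ico, add_sub_cancel_left]
        exact Int.toNat_natCast _
      rw [Finset.prod_congr rfl h2, Finset.prod_const, Finset.card_univ]
      push_cast
      rfl
    rw [← Ex_const hp.sum_one (Fintype.card ι * ((d : ℝ) * Real.log 2))]
    refine Ex_mono hp.nonneg fun ω _ => ?_
    rw [h1, Real.log_pow, Real.log_pow]

/-- The digits of bounded numbers. -/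
theorem dg_cnt [Fintype ι] {v : ∀ (J : ℕ) (F : Fam m J), F.Ω → ι → ℝ} {M c : ℝ} {e : ℕ → ℕ}
    (he : ∀ J : ℕ, (e J : ℝ) ≤ c * J) (hM : 0 ≤ M)
    (hv : Bas S (fun J F A => ∀ ω, A ω → 0 < F.p ω → ∀ i, |v J F ω i| ≤ Real.exp (M * J))) :
    Bas S (fun J F A => (cnt F.p (dg v e J F) A : ℝ) ≤
      Real.exp (Fintype.card ι * (M + c + 2) * J)) := by
  classical
  refine Bas.mono 1 hv ?_
  rintro J hJ F A h
  have hJ1 : (1 : ℝ) ≤ J := by exact_mod_cast hJ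
  obtain ⟨N, hN⟩ : ∃ N : ℤ, N = ⌈(2 : ℝ) ^ e J * Real.exp (M * J)⌉ := ⟨_, rfl⟩
  have hsub : cset F.p (dg v e J F) A ⊆ Fintype.piFinset fun _ : ι => Finset.Icc (-N) N := by
    intro x hx
    obtain ⟨ω, h1, h2, rfl⟩ := of_mem_cset hx
    rw [Fintype.mem_piFinset]
    intro i
    have h3 := h ω h2 h1 i
    have h4 : |(2 : ℝ) ^ e J * v J F ω i| ≤ N := by
      rw [abs_mul, abs_of_nonneg (by positivity : (0 : ℝ) ≤ 2 ^ e J), hN]
      exact (mul_le_mul_of_nonneg_left h3 (by positivity)).trans (Int.le_ceil _)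
    rw [Finset.mem_Icc]
    unfold dg
    obtain ⟨h5, h6⟩ := abs_le.1 h4
    refine ⟨Int.le_floor.2 (by push_cast; exact h5), ?_⟩
    exact Int.floor_le_iff.2 (by linarith)
  have h1 : (cnt F.p (dg v e J F) A : ℝ) ≤ (2 * N + 1 : ℝ) ^ Fintype.card ι := by
    rw [← cset_card]
    have hN0 : 0 ≤ N := by
      rw [hN]
      exact Int.ceil_nonneg (by positivity)
    have h2 := Finset.card_le_card hsub
    rw [Fintype.card_piFinset, Finset.prod_const, Finset.card_univ, Int.card_Icc] at h2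
    have h3 : (((N + 1 - -N).toNat : ℕ) : ℝ) = 2 * N + 1 := by
      have h4 : ((N + 1 - -N).toNat : ℤ) = 2 * N + 1 := by
        rw [Int.toNat_of_nonneg (by omega)]
        ring
      exact_mod_cast h4
    calc ((cset F.p (dg v e J F) A).card : ℝ) ≤ (((N + 1 - -N).toNat ^ Fintype.card ι : ℕ) : ℝ) := by
          exact_mod_cast h2
      _ = _ := by rw [Nat.cast_pow, h3]
  refine h1.trans ?_
  have h2 : (N : ℝ) ≤ 2 ^ e J * Real.exp (M * J) + 1 := by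
    rw [hN]
    exact (Int.ceil_lt_add_one _).le
  have hx : (1 : ℝ) ≤ 2 ^ e J * Real.exp (M * J) := by
    have h3 : (1 : ℝ) ≤ 2 ^ e J := one_le_pow₀ (by norm_num)
    have h4 : (1 : ℝ) ≤ Real.exp (M * J) := Real.one_le_exp (by positivity)
    nlinarith
  have h3 : (2 : ℝ) ^ e J ≤ Real.exp (c * J) := by
    have h4 : (2 : ℝ) ≤ Real.exp 1 := by
      have := Real.add_one_le_exp (1 : ℝ)
      linarith
    calc (2 : ℝ) ^ e J ≤ Real.exp 1 ^ e J := pow_le_pow_left₀ (by norm_num) h4 _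
      _ = Real.exp (e J) := by rw [← Real.exp_nat_mul, mul_one]
      _ ≤ _ := Real.exp_le_exp.2 (he J)
  have h5 : (5 : ℝ) ≤ Real.exp (2 * J) := by
    have h6 : (5 : ℝ) ≤ Real.exp 2 := by
      have := Real.quadratic_le_exp_of_nonneg (by norm_num : (0 : ℝ) ≤ 2)
      linarith
    exact h6.trans (Real.exp_le_exp.2 (by linarith))
  have h4 : 2 * (N : ℝ) + 1 ≤ Real.exp ((M + c + 2) * J) := by
    have e1 : (M + c + 2) * (J : ℝ) = 2 * J + (c * J + M * J) := by ring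
    rw [e1, Real.exp_add, Real.exp_add]
    have e2 : (2 : ℝ) ^ e J * Real.exp (M * J) ≤ Real.exp (c * J) * Real.exp (M * J) :=
      mul_le_mul_of_nonneg_right h3 (Real.exp_pos _).le
    calc 2 * (N : ℝ) + 1 ≤ 5 * (2 ^ e J * Real.exp (M * J)) := by linarith
      _ ≤ Real.exp (2 * J) * (Real.exp (c * J) * Real.exp (M * J)) :=
          mul_le_mul h5 e2 (by positivity) (Real.exp_pos _).le
  have hN1 : (0 : ℝ) ≤ 2 * N + 1 := by
    have : (0 : ℝ) ≤ N := by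
      rw [hN]
      exact_mod_cast Int.ceil_nonneg (by positivity)
    linarith
  calc (2 * (N : ℝ) + 1) ^ Fintype.card ι ≤ Real.exp ((M + c + 2) * J) ^ Fintype.card ι :=
        pow_le_pow_left₀ hN1 h4 _
    _ = _ := by
        rw [← Real.exp_nat_mul]
        congr 1
        ring

/-- **The cap**: more digits. -/
theorem FwN.more [Fintype ι]
    (hpos : ∀ (τ : ℝ) (J : ℕ) (F : Fam m J) (A : F.Ω → Prop), S.St τ J F A → 0 < Pe F.p A)
    {v : ∀ (J : ℕ) (F : Fam m J), F.Ω → ι → ℝ} {e e' : ℕ → ℕ} {δ d : ℝ}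
    (h1 : ∀ J, e J ≤ e' J) (h2 : ∀ J, ((e' J - e J : ℕ) : ℝ) ≤ d * J + 1)
    (h : FwN S f g y (dg v e) δ) : FwN S f g y (dg v e') (Fintype.card ι * d + δ) := by
  intro c hc
  obtain ⟨J₀, hJ₀⟩ := exists_nat_ge (Fintype.card ι / (c / 2))
  refine Bas.mono J₀ ((h (c / 2) (half_pos hc)).and (pos_bas hpos)) ?_
  rintro J hJ F A ⟨⟨V, z, hz, h3⟩, hA⟩
  have hcl := isLaw_cond F.isLaw hA
  refine ⟨V, z, hz, ?_⟩
  have h4 := CH_le_add hcl.nonneg (dg v e' J F) (dg v e J F) (fun ω => (z ω, y J F ω))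
  have h5 := dg_ch v (h1 J) F hcl (fun ω => (z ω, y J F ω))
  have h6 : (Fintype.card ι : ℝ) * (((e' J - e J : ℕ) : ℝ) * Real.log 2) ≤
      Fintype.card ι * (d * J + 1) := by
    refine mul_le_mul_of_nonneg_left ?_ (Nat.cast_nonneg _)
    have l2 : Real.log 2 ≤ 1 := by
      have := Real.log_two_lt_d9
      linarith
    have l0 : 0 ≤ Real.log 2 := Real.log_nonneg (by norm_num)
    have h7 : (0 : ℝ) ≤ ((e' J - e J : ℕ) : ℝ) := Nat.cast_nonneg _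
    calc ((e' J - e J : ℕ) : ℝ) * Real.log 2 ≤ ((e' J - e J : ℕ) : ℝ) * 1 :=
          mul_le_mul_of_nonneg_left l2 h7
      _ ≤ _ := by rw [mul_one]; exact h2 J
  have h7 : (Fintype.card ι : ℝ) ≤ c / 2 * J := by
    have h8 : (J₀ : ℝ) ≤ J := by exact_mod_cast hJ
    have h9 := hJ₀.trans h8
    rw [div_le_iff₀ (half_pos hc)] at h9
    linarith
  have e1 : (Fintype.card ι * d + δ + c) * (J : ℝ) =
      Fintype.card ι * (d * J) + (δ + c / 2) * J + c / 2 * J := by ring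
  rw [e1]
  linarith

/-- **The family of digits.** -/
theorem gfam_dg [Fintype ι]
    (hpos : ∀ (τ : ℝ) (J : ℕ) (F : Fam m J) (A : F.Ω → Prop), S.St τ J F A → 0 < Pe F.p A)
    {v : ∀ (J : ℕ) (F : Fam m J), F.Ω → ι → ℝ} {M c δ : ℝ} (hM : 0 ≤ M) (hc : 0 ≤ c)
    (hv : Bas S (fun J F A => ∀ ω, A ω → 0 < F.p ω → ∀ i, |v J F ω i| ≤ Real.exp (M * J)))
    {N : ℕ} {x : ℕ → ℝ} (hx : ∀ i j, i ≤ j → j ≤ N → x i ≤ x j) (hN : x N ≤ 1)
    (hf : ∀ i ≤ N, FwN S f (vg (x i)) y (dg v (pr c (x i))) δ) :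
    GFam S f y N x (fun i => q1 (dg v (pr c (x i)))) (Fintype.card ι * c) δ where
  mono := hx
  one := hN
  exs := fun j hj e he => by
    have h1 : ∀ J : ℕ, (pr c (x j) J : ℝ) ≤ c * J := fun J => by
      have h2 : c * x j * (J : ℝ) ≤ c * J := by
        have h3 : x j ≤ 1 := (hx j N hj le_rfl).trans hN
        have h4 : c * x j ≤ c * 1 := mul_le_mul_of_nonneg_left h3 hc
        rw [mul_one] at h4
        exact mul_le_mul_of_nonneg_right h4 (Nat.cast_nonneg J)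
      rcases le_total 0 (c * x j * (J : ℝ)) with h0 | h0
      · exact (Nat.floor_le h0).trans h2
      · unfold pr
        rw [Nat.floor_of_nonpos h0]
        push_cast
        positivity
    refine ⟨0, Fintype.card ι * (M + c + 2), Bas.mono 0 (dg_cnt h1 hM hv) ?_⟩
    intro J _ F A h2
    exact ⟨_, rfl, h2⟩
  few := fun i j _ _ => few_fn hpos fun J F => ⟨id, fun _ => rfl⟩
  crs := fun i j k hij hjk hk => few_fn hpos fun J F => dg_fn v
    (pr_mono hc (hx j k hjk hk) J) F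
  cap := fun i j hij hj => by
    have h1 := FwN.more hpos (d := c * (x j - x i)) (fun J => pr_mono hc (hx i j hij hj) J)
      (fun J => pr_sub hc (hx i j hij hj) J) (hf i (hij.trans hj))
    rw [← mul_assoc] at h1
    exact h1.few

/-- **The digits given coarser records.** Constants in the order: `c`, `κ₀`, `L`; then `n`; then the
length `q` of the box; then `δ`. The sub-box has `L` steps of the length `q / L ^ k`, `k ≤ n`. -/
theorem far_num (ι : Type) [Fintype ι] {c κ₀ : ℝ} (hc : 0 ≤ c) (hκ : 0 < κ₀) {L : ℕ} (hL : 1 ≤ L) :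
    ∃ n : ℕ, 1 ≤ n ∧ ∀ q : ℝ, 0 < q → ∃ δ : ℝ, 0 < δ ∧
    ∀ {m : ℕ} {α γ : ∀ J : ℕ, Fam m J → Type} {f : ∀ (J : ℕ) (F : Fam m J), F.Ω → α J F}
      {y : ∀ (J : ℕ) (F : Fam m J), F.Ω → γ J F} {S : PCl m}
      {v : ∀ (J : ℕ) (F : Fam m J), F.Ω → ι → ℝ} {M M' t : ℝ},
    S.Ne → (∀ (τ : ℝ) (J : ℕ) (F : Fam m J) (A : F.Ω → Prop), S.St τ J F A → 0 < Pe F.p A) →
    Bas S (fun J F A => (cnt F.p (f J F) A : ℝ) ≤ Real.exp (M * J)) →
    0 ≤ M' → Bas S (fun J F A => ∀ ω, A ω → 0 < F.p ω → ∀ i, |v J F ω i| ≤ Real.exp (M' * J)) →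
    t + q ≤ 1 →
    (∀ x : ℝ, t ≤ x → x ≤ t + q → FwN S f (vg x) y (dg v (pr c x)) δ) →
    ∃ S' : PCl m, S'.Ne ∧
      (∀ (τ : ℝ) (J : ℕ) (F : Fam m J) (A : F.Ω → Prop), S'.St τ J F A → S.St τ J F A) ∧
      ∃ (k p : ℕ) (x : ℕ → ℝ), 1 ≤ k ∧ k ≤ n ∧ p + L ≤ L ^ k ∧
        (∀ i, x i = t + ((p + i : ℕ) / (L : ℝ) ^ k) * q) ∧
        ∀ c₀ ε : ℝ, 0 < c₀ → 0 < ε → ∃ κ : ℝ, 0 < κ ∧ Bas S' (fun J F A =>
          ∀ (V : ℕ → Type) (z : ∀ i, F.Ω → V i), (∀ i ≤ L, Mx f (vg (x i)) κ F A (z i)) →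
          ∀ B : F.Ω → Prop, Sub B A → c₀ * Pe F.p A ≤ Pe F.p B →
          ∀ i j l : ℕ, i ≤ j → j ≤ l → l ≤ L →
          CH (Pool.Agent.H49.Ent.cond F.p B True) (dg v (pr c (x l)) J F)
              (fun ω => (dg v (pr c (x j)) J F ω, (z i ω, y J F ω))) ≤
            CH (Pool.Agent.H49.Ent.cond F.p B True) (dg v (pr c (x l)) J F)
              (fun ω => (dg v (pr c (x j)) J F ω, ((z j ω, z i ω), y J F ω))) +
            (κ₀ * (q / (L : ℝ) ^ k) + ε) * J) := by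
  obtain ⟨C, hC⟩ : ∃ C : ℝ, C = Fintype.card ι * c := ⟨_, rfl⟩
  have hC0 : 0 ≤ C := by rw [hC]; positivity
  obtain ⟨κ₁, hκ₁⟩ : ∃ κ₁ : ℝ, κ₁ = κ₀ / 2 := ⟨_, rfl⟩
  have k1 : 0 < κ₁ := by rw [hκ₁]; positivity
  obtain ⟨n₀, hn₀⟩ := exists_nat_ge (2 * (C + 1) * L / κ₁)
  rw [div_le_iff₀ k1] at hn₀
  obtain ⟨n, hn⟩ : ∃ n, n = max 1 n₀ := ⟨_, rfl⟩
  have hn1 : 1 ≤ n := by rw [hn]; exact le_max_left _ _
  have hn2 : 2 * (C + 1) * L ≤ κ₁ * n := by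
    have h1 : (n₀ : ℝ) ≤ n := by rw [hn]; exact_mod_cast le_max_right _ _
    have h2 := mul_le_mul_of_nonneg_left h1 k1.le
    linarith
  have hL0 : (0 : ℝ) < L := by exact_mod_cast hL
  have hLn : (0 : ℝ) < (L : ℝ) ^ n := by positivity
  refine ⟨n, hn1, fun q hq => ?_⟩
  obtain ⟨δ, hδe⟩ : ∃ δ : ℝ, δ = min q (κ₁ * q / (2 * (L + 2) * (L : ℝ) ^ n)) := ⟨_, rfl⟩
  have hδ0 : 0 < δ := by rw [hδe]; exact lt_min hq (by positivity)
  have hδq : δ ≤ q := by rw [hδe]; exact min_le_left _ _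
  have hδ' : 2 * (L + 2) * (δ * (L : ℝ) ^ n) ≤ κ₁ * q := by
    have h1 : δ ≤ κ₁ * q / (2 * (L + 2) * (L : ℝ) ^ n) := by rw [hδe]; exact min_le_right _ _
    rw [le_div_iff₀ (by positivity)] at h1
    linarith
  refine ⟨δ, hδ0, fun {m α γ f y S v M M' t} hS hpos hM hM' hv htq hf => ?_⟩
  obtain ⟨X, hX⟩ : ∃ X : ℕ → ℝ, X = fun i : ℕ => t + (i / (L : ℝ) ^ n) * q := ⟨_, rfl⟩
  have hXi : ∀ i, X i = t + (i / (L : ℝ) ^ n) * q := fun i => by rw [hX]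
  have hXm : ∀ i j : ℕ, i ≤ j → X i ≤ X j := fun i j hij => by
    rw [hXi, hXi]
    have h1 : (i : ℝ) ≤ j := by exact_mod_cast hij
    have h2 : (i : ℝ) / (L : ℝ) ^ n ≤ j / (L : ℝ) ^ n := div_le_div_of_nonneg_right h1 hLn.le
    have h3 := mul_le_mul_of_nonneg_right h2 hq.le
    linarith
  have hXN : X (L ^ n) = t + q := by
    rw [hXi]
    push_cast
    rw [div_self hLn.ne', one_mul]
  have hX0 : ∀ i, t ≤ X i := fun i => by
    rw [hXi]
    have : 0 ≤ (i : ℝ) / (L : ℝ) ^ n * q := by positivity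
    linarith
  have hG := gfam_dg (f := f) (y := y) hpos hM' hc hv (N := L ^ n) (x := X)
    (fun i j hij _ => hXm i j hij) (by rw [hXN]; exact htq)
    (fun i hi => hf (X i) (hX0 i) (by rw [← hXN]; exact hXm i _ hi))
  rw [← hC] at hG
  obtain ⟨S', h1, h2, θ, k, p, hθ, hk1, hkn, hpL, -, hxx, hb, hadd⟩ := num_g hS hpos hM hL hn1 hq
    hC0 hδ0.le k1 (fun i _ => hXi i) hG hn2 hδ' hδq
  have hpos' : ∀ (τ : ℝ) (J : ℕ) (F : Fam m J) (A : F.Ω → Prop), S'.St τ J F A → 0 < Pe F.p A :=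
    fun τ J F A h => hpos τ J F A (h2 τ J F A h)
  refine ⟨S', h1, h2, k, p, fun i => t + ((p + i : ℕ) / (L : ℝ) ^ k) * q, hk1, hkn, hpL,
    fun _ => rfl, fun c₀ ε hc₀ hε => ?_⟩
  obtain ⟨w, hw⟩ : ∃ w : ℕ → ℕ, w = fun i => (p + i) * L ^ (n - k) := ⟨_, rfl⟩
  have hwi : ∀ i, w i = (p + i) * L ^ (n - k) := fun i => by rw [hw]
  have hwm : ∀ i j, i ≤ j → w i ≤ w j := fun i j hij => by
    rw [hwi, hwi]
    exact Nat.mul_le_mul_right _ (by omega)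
  have hwN : ∀ i ≤ L, w i ≤ L ^ n := fun i hi => by rw [hwi]; exact (hxx i hi).1
  have hwx : ∀ i ≤ L, X (w i) = t + ((p + i : ℕ) / (L : ℝ) ^ k) * q := fun i hi => by
    rw [hwi]
    exact (hxx i hi).2
  simp only [← hwi] at hadd hb
  -- the numbers on large parts
  have N1 : ∀ a : Fin (L + 1) × Fin (L + 1), ∃ κ : ℝ, 0 < κ ∧ Bas S' (fun J F A =>
      (a.1 : ℕ) ≤ a.2 → ∀ (V : Type) (z : F.Ω → V), Mx f (vg (X (w a.1))) κ F A z →
      ∀ B : F.Ω → Prop, Sub B A → c₀ * Pe F.p A ≤ Pe F.p B →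
      |CH (Pool.Agent.H49.Ent.cond F.p B True) (dg v (pr c (X (w a.2))) J F)
        (fun ω => (z ω, y J F ω)) - θ (w a.1) (w a.2) * J| ≤ ε / 8 * J) := by
    intro a
    by_cases ha : (a.1 : ℕ) ≤ a.2
    · have h3 : (a.2 : ℕ) ≤ L := Nat.lt_succ_iff.1 a.2.2
      obtain ⟨η, hη⟩ := hθ.rn (w a.1) (hwN _ (Nat.lt_succ_iff.1 a.1.2))
      obtain ⟨κ, hκ1, e₀, -, H⟩ := ev_two hpos' hη (hθ.nn (w a.1) (w a.2) (hwm _ _ ha) (hwN _ h3))
        hc₀ (ε / 8) (by positivity)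
      refine ⟨κ, hκ1, Bas.mono 0 (H 0) ?_⟩
      intro J _ F A H' _ V z hz B hB hBA
      exact H' V z hz _ rfl B hB hBA
    · exact ⟨1, one_pos, Bas.mono 0 (pos_bas hpos') fun J _ F A _ h => absurd h ha⟩
  choose κ hκ1 H1 using N1
  obtain ⟨a₀, ha₀⟩ := Finite.exists_min κ
  refine ⟨min (κ a₀) (c₀ * (ε / 4)), lt_min (hκ1 a₀) (by positivity),
    Bas.mono 0 ((Bas.fin' H1).and (pos_bas hpos')) ?_⟩
  rintro J - F A ⟨H, hA⟩ V z hz B hB hBA i j l hij hjl hl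
  have hJ0 : (0 : ℝ) ≤ J := Nat.cast_nonneg J
  have hBp : 0 < Pe F.p B := lt_of_lt_of_le (mul_pos hc₀ hA) hBA
  have hcl := isLaw_cond F.isLaw hBp
  have hzz : ∀ i ≤ L, ∀ a, Mx f (vg (X (w i))) (κ a) F A (z i) := fun i hi a => by
    have h3 : Mx f (vg (t + ((p + i : ℕ) / (L : ℝ) ^ k) * q)) (min (κ a₀) (c₀ * (ε / 4))) F A
      (z i) := hz i hi
    rw [← hwx i hi] at h3
    exact ⟨h3.1, fun V' z' hz' => (h3.2 V' z' hz').trans
      (mul_le_mul_of_nonneg_right ((min_le_left _ _).trans (ha₀ a)) hJ0)⟩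
  have key : ∀ i j : ℕ, i ≤ j → j ≤ L →
      |CH (Pool.Agent.H49.Ent.cond F.p B True) (dg v (pr c (X (w j))) J F)
        (fun ω => (z i ω, y J F ω)) - θ (w i) (w j) * J| ≤ ε / 8 * J := by
    intro i j hij hj
    have h3 := H (⟨i, by omega⟩, ⟨j, by omega⟩) hij (V i) (z i) (hzz i (hij.trans hj) _) B hB hBA
    exact h3
  have a1 := (abs_le.1 (key i l (hij.trans hjl) hl)).2
  have a2 := (abs_le.1 (key i j hij (hjl.trans hl))).1
  have a3 := (abs_le.1 (key j l hjl hl)).1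
  have a4 := (abs_le.1 (key j j le_rfl (hjl.trans hl))).2
  have a5 := mul_le_mul_of_nonneg_right (hadd i j l hij hjl hl).2 hJ0
  have a6 := mul_le_mul_of_nonneg_right (hb j j le_rfl (hjl.trans hl)).2 hJ0
  have hj' := hwx j (hjl.trans hl)
  have hl' := hwx l hl
  show CH (Pool.Agent.H49.Ent.cond F.p B True) (dg v (pr c (t + ((p + l : ℕ) / (L : ℝ) ^ k) * q)) J F)
      (fun ω => (dg v (pr c (t + ((p + j : ℕ) / (L : ℝ) ^ k) * q)) J F ω, (z i ω, y J F ω))) ≤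
    CH (Pool.Agent.H49.Ent.cond F.p B True) (dg v (pr c (t + ((p + l : ℕ) / (L : ℝ) ^ k) * q)) J F)
      (fun ω => (dg v (pr c (t + ((p + j : ℕ) / (L : ℝ) ^ k) * q)) J F ω,
        ((z j ω, z i ω), y J F ω))) + _
  rw [← hj', ← hl']
  -- the coarser record given the finer one
  have c1 : CH (Pool.Agent.H49.Ent.cond F.p A True) (z i) (z j) ≤ c₀ * (ε / 4 * J) := by
    have h3 : Mx f (vg (t + ((p + i : ℕ) / (L : ℝ) ^ k) * q)) (min (κ a₀) (c₀ * (ε / 4))) F A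
      (z i) := hz i (hij.trans (hjl.trans hl))
    have h4 : Mx f (vg (t + ((p + j : ℕ) / (L : ℝ) ^ k) * q)) (min (κ a₀) (c₀ * (ε / 4))) F A
      (z j) := hz j (hjl.trans hl)
    rw [← hwx i (hij.trans (hjl.trans hl))] at h3
    rw [← hwx j (hjl.trans hl)] at h4
    have h5 : X (w j) ≤ 1 := (hXm _ _ (hwN j (hjl.trans hl))).trans (by rw [hXN]; exact htq)
    refine (h4.2 _ _ (cl2_vg (hXm _ _ (hwm i j hij)) h5 h3.1)).trans ?_
    rw [← mul_assoc]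
    exact mul_le_mul_of_nonneg_right (min_le_right _ _) hJ0
  have c2 : CH (Pool.Agent.H49.Ent.cond F.p B True) (z i) (z j) ≤ ε / 4 * J :=
    ch_part F.isLaw hB hA hc₀ hBA _ _ c1
  have c3 := CH_le_add hcl.nonneg (dg v (pr c (X (w l))) J F) (z i)
    (fun ω => (dg v (pr c (X (w j))) J F ω, (z j ω, y J F ω)))
  have c4 : CH (Pool.Agent.H49.Ent.cond F.p B True) (z i)
      (fun ω => (dg v (pr c (X (w j))) J F ω, (z j ω, y J F ω))) ≤
      CH (Pool.Agent.H49.Ent.cond F.p B True) (z i) (z j) :=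
    CH_mono_cond hcl.nonneg fun ω ω' _ _ h => by
      simp only [Prod.mk.injEq] at h
      exact h.2.1
  have c5 : CH (Pool.Agent.H49.Ent.cond F.p B True) (dg v (pr c (X (w l))) J F)
      (fun ω => (z i ω, (dg v (pr c (X (w j))) J F ω, (z j ω, y J F ω)))) ≤
      CH (Pool.Agent.H49.Ent.cond F.p B True) (dg v (pr c (X (w l))) J F)
      (fun ω => (dg v (pr c (X (w j))) J F ω, ((z j ω, z i ω), y J F ω))) := by
    refine CH_mono_cond hcl.nonneg fun ω ω' _ _ h => ?_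
    simp only [Prod.mk.injEq] at h ⊢
    tauto
  have e2 : 0 ≤ ε * (J : ℝ) := by positivity
  obtain ⟨φ, hφ⟩ := dg_fn (J := J) v (pr_mono hc (hXm _ _ (hwm j l hjl)) J) F
  -- exact chain at `i`
  have b1 := ch_swap hcl.nonneg (dg v (pr c (X (w l))) J F) (dg v (pr c (X (w j))) J F)
    (fun ω => (z i ω, y J F ω))
  have b2 : CH (Pool.Agent.H49.Ent.cond F.p B True) (dg v (pr c (X (w j))) J F)
      (fun ω => (dg v (pr c (X (w l))) J F ω, (z i ω, y J F ω))) = 0 :=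
    CH_eq_zero hcl.nonneg fun ω ω' _ _ h => by
      rw [hφ, hφ]
      exact congrArg φ (Prod.ext_iff.1 h).1
  -- at `j`
  have b3 := CH_le_add hcl.nonneg (dg v (pr c (X (w l))) J F) (dg v (pr c (X (w j))) J F)
    (fun ω => (z j ω, y J F ω))
  have e1 : (κ₀ * (q / (L : ℝ) ^ k) + ε) * J = 2 * (κ₁ * (q / (L : ℝ) ^ k) * J) + ε * J := by
    rw [hκ₁]
    ring
  rw [e1]
  rw [sub_self, zero_mul, mul_zero, zero_add] at a6
  linarith

/-- **One quantity, finer and finer records.** Constants in the order: `C`, `κ₀`; then `n`; then the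
step `X` and the start `t`. -/
theorem far_pig {C κ₀ : ℝ} (hκ : 0 < κ₀) :
    ∃ n : ℕ, 1 ≤ n ∧
    ∀ {m : ℕ} {U : Type} {α γ : ∀ J : ℕ, Fam m J → Type}
      {f : ∀ (J : ℕ) (F : Fam m J), F.Ω → α J F}
      {y : ∀ (J : ℕ) (F : Fam m J), F.Ω → γ J F} {S : PCl m}
      {w : ∀ (J : ℕ) (F : Fam m J), F.Ω → U} {M M' t X : ℝ},
    S.Ne → (∀ (τ : ℝ) (J : ℕ) (F : Fam m J) (A : F.Ω → Prop), S.St τ J F A → 0 < Pe F.p A) →
    Bas S (fun J F A => (cnt F.p (f J F) A : ℝ) ≤ Real.exp (M * J)) →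
    Bas S (fun J F A => (cnt F.p (w J F) A : ℝ) ≤ Real.exp (M' * J)) →
    0 < X → t + n * X ≤ 1 → FwN S f (vg t) y w (C * X) →
    ∃ S' : PCl m, S'.Ne ∧
      (∀ (τ : ℝ) (J : ℕ) (F : Fam m J) (A : F.Ω → Prop), S'.St τ J F A → S.St τ J F A) ∧
      ∃ i < n, ∀ c₀ ε : ℝ, 0 < c₀ → 0 < ε → ∃ κ : ℝ, 0 < κ ∧ Bas S' (fun J F A =>
          ∀ (V V' : Type) (z : F.Ω → V) (z' : F.Ω → V'), Mx f (vg (t + i * X)) κ F A z →
          Mx f (vg (t + (i + 1 : ℕ) * X)) κ F A z' →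
          ∀ B : F.Ω → Prop, Sub B A → c₀ * Pe F.p A ≤ Pe F.p B →
          CH (Pool.Agent.H49.Ent.cond F.p B True) (w J F) (fun ω => (z ω, y J F ω)) ≤
            CH (Pool.Agent.H49.Ent.cond F.p B True) (w J F) (fun ω => ((z' ω, z ω), y J F ω)) +
            (κ₀ * X + ε) * J) := by
  obtain ⟨n₀, hn₀⟩ := exists_nat_ge (C / κ₀)
  rw [div_le_iff₀ hκ] at hn₀
  obtain ⟨n, hn⟩ : ∃ n, n = max 1 n₀ := ⟨_, rfl⟩
  have hn1 : 1 ≤ n := by rw [hn]; exact le_max_left _ _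
  have hn0 : (0 : ℝ) < n := by exact_mod_cast hn1
  have hn2 : C ≤ n * κ₀ := by
    have h1 : (n₀ : ℝ) ≤ n := by rw [hn]; exact_mod_cast le_max_right _ _
    have h2 := mul_le_mul_of_nonneg_right h1 hκ.le
    linarith
  refine ⟨n, hn1, fun {m U α γ f y S w M M' t X} hS hpos hM hw hX ht hf => ?_⟩
  obtain ⟨x, hx⟩ : ∃ x : ℕ → ℝ, x = fun i : ℕ => t + i * X := ⟨_, rfl⟩
  have hxi : ∀ i, x i = t + i * X := fun i => by rw [hx]
  have hxm : ∀ i j : ℕ, i ≤ j → x i ≤ x j := fun i j hij => by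
    rw [hxi, hxi]
    have h1 : (i : ℝ) ≤ j := by exact_mod_cast hij
    have h2 := mul_le_mul_of_nonneg_right h1 hX.le
    linarith
  have hxn : ∀ i ≤ n, x i ≤ 1 := fun i hi => by
    have := hxm i n hi
    rw [hxi n] at this
    linarith
  have hex : Exs S (q1 w) := fun e _ => ⟨0, M', Bas.mono 0 hw fun J _ F A h => ⟨_, rfl, h⟩⟩
  obtain ⟨S₁, h1, h2, h3⟩ := nn_ext hS hpos (fun _ => U) (fun _ => α) (fun _ J F => LnT F)
    (fun _ => γ) (fun _ => f) (fun i => vg (x i)) (fun _ => y) (fun _ => q1 w) (fun _ => hex)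
    (fun _ => few_fn hpos fun J F => ⟨id, fun _ => rfl⟩)
  have hpos₁ : ∀ (τ : ℝ) (J : ℕ) (F : Fam m J) (A : F.Ω → Prop), S₁.St τ J F A → 0 < Pe F.p A :=
    fun τ J F A h => hpos τ J F A (h2 τ J F A h)
  obtain ⟨S', g1, g2, g3⟩ := ext_rec h1 hpos₁ (fun _ => α) (fun _ _ F => LnT F) (fun _ => f)
    (fun i => vg (x i)) (fun _ => M) (fun _ => hM.sub h2)
  have hs' : ∀ (τ : ℝ) (J : ℕ) (F : Fam m J) (A : F.Ω → Prop), S'.St τ J F A → S.St τ J F A :=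
    fun τ J F A h => h2 τ J F A (g2 τ J F A h)
  have hpos' : ∀ (τ : ℝ) (J : ℕ) (F : Fam m J) (A : F.Ω → Prop), S'.St τ J F A → 0 < Pe F.p A :=
    fun τ J F A h => hpos τ J F A (hs' τ J F A h)
  choose θ hθ using h3
  have hθ' : ∀ i, NN S' f (vg (x i)) y (q1 w) (θ i) := fun i => (hθ i).sub g2
  -- the numbers
  have hlow : ∀ i, 0 ≤ θ i := fun i => by
    obtain ⟨η, hη⟩ := g3 i
    refine le_of_bas g1 fun ε hε => ?_
    obtain ⟨k, hk, e₀, -, H⟩ := hθ' i ε hε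
    refine Bas.mono 0 (((H 0).and (mx_ex hpos' hη k hk)).and (pos_bas hpos')) ?_
    rintro J - F A ⟨⟨H, V, z, hz⟩, hA⟩
    have a1 := (abs_le.1 (H V z hz _ rfl)).2
    have a2 := CH_nonneg (isLaw_cond F.isLaw hA).nonneg (w J F) (fun ω => (z ω, y J F ω))
    linarith
  have htop : θ 0 ≤ C * X := by
    obtain ⟨η, hη⟩ := g3 0
    refine le_of_bas g1 fun ε hε => ?_
    obtain ⟨k, hk, e₀, -, H⟩ := hθ' 0 (ε / 2) (half_pos hε)
    obtain ⟨e₁, -, H₁⟩ := ((hf.sub hs').few).mx hpos' (ε / 2) (half_pos hε)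
    refine Bas.mono 0 (((H 0).and (H₁ 0)).and ((mx_ex hpos' hη (min k (ε / 2 / 2))
      (lt_min hk (by positivity))).and (pos_bas hpos'))) ?_
    rintro J - F A ⟨⟨H, H₁⟩, ⟨V, z, hz⟩, hA⟩
    have hJ0 : (0 : ℝ) ≤ J := Nat.cast_nonneg J
    have hz' : ∀ a, min k (ε / 2 / 2) ≤ a → Mx f (vg (x 0)) a F A z := fun a ha =>
      ⟨hz.1, fun V' z' hz' => (hz.2 V' z' hz').trans (mul_le_mul_of_nonneg_right ha hJ0)⟩
    have e0 : x 0 = t := by rw [hxi]; simp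
    have a1 := (abs_le.1 (H V z (hz' _ (min_le_left _ _)) _ rfl)).1
    have hz2 := hz' _ (min_le_right _ _)
    rw [e0] at hz2
    have a2 := H₁ V z hz2 _ rfl
    linarith
  have hstep : ∃ i < n, θ i - θ (i + 1) ≤ κ₀ * X := by
    by_contra hcon
    push Not at hcon
    have h4 : ∀ i ≤ n, θ i ≤ θ 0 - i * (κ₀ * X) := by
      intro i
      induction i with
      | zero => intro _; simp
      | succ i ih =>
        intro hi
        have h5 := hcon i hi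
        have h6 := ih (by omega)
        push_cast
        linarith
    obtain ⟨n', rfl⟩ : ∃ n', n = n' + 1 := ⟨n - 1, by omega⟩
    have h5 := h4 n' (by omega)
    have h6 := hcon n' (by omega)
    have h7 := hlow (n' + 1)
    have h8 : C * X ≤ ((n' + 1 : ℕ) : ℝ) * κ₀ * X := mul_le_mul_of_nonneg_right hn2 hX.le
    push_cast at h8
    linarith
  obtain ⟨i, hi, hθi⟩ := hstep
  refine ⟨S', g1, hs', i, hi, fun c₀ ε hc₀ hε => ?_⟩
  obtain ⟨η, hη⟩ := g3 i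
  obtain ⟨η', hη'⟩ := g3 (i + 1)
  obtain ⟨κ, hκ1, e₀, -, H⟩ := ev_two hpos' hη (hθ' i) hc₀ (ε / 4) (by positivity)
  obtain ⟨κ', hκ1', e₀', -, H'⟩ := ev_two hpos' hη' (hθ' (i + 1)) hc₀ (ε / 4) (by positivity)
  refine ⟨min (min κ κ') (c₀ * (ε / 4)), lt_min (lt_min hκ1 hκ1') (by positivity),
    Bas.mono 0 (((H 0).and (H' 0)).and (pos_bas hpos')) ?_⟩
  rintro J - F A ⟨⟨H, H'⟩, hA⟩ V V' z z' hz hz' B hB hBA
  have hJ0 : (0 : ℝ) ≤ J := Nat.cast_nonneg J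
  have hBp : 0 < Pe F.p B := lt_of_lt_of_le (mul_pos hc₀ hA) hBA
  have hcl := isLaw_cond F.isLaw hBp
  rw [← hxi] at hz hz'
  have hz2 : Mx f (vg (x i)) κ F A z := ⟨hz.1, fun _ u hu => (hz.2 _ u hu).trans
    (mul_le_mul_of_nonneg_right ((min_le_left _ _).trans (min_le_left _ _)) hJ0)⟩
  have hz2' : Mx f (vg (x (i + 1))) κ' F A z' := ⟨hz'.1, fun _ u hu => (hz'.2 _ u hu).trans
    (mul_le_mul_of_nonneg_right ((min_le_left _ _).trans (min_le_right _ _)) hJ0)⟩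
  have a1 := (abs_le.1 (H V z hz2 _ rfl B hB hBA)).2
  have a2 := (abs_le.1 (H' V' z' hz2' _ rfl B hB hBA)).1
  have a3 := mul_le_mul_of_nonneg_right hθi hJ0
  have c1 : CH (Pool.Agent.H49.Ent.cond F.p A True) z z' ≤ c₀ * (ε / 4 * J) := by
    refine (hz'.2 _ _ (cl2_vg (hxm _ _ (Nat.le_succ i)) (hxn _ hi) hz.1)).trans ?_
    rw [← mul_assoc]
    exact mul_le_mul_of_nonneg_right (min_le_right _ _) hJ0
  have c2 : CH (Pool.Agent.H49.Ent.cond F.p B True) z z' ≤ ε / 4 * J :=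
    ch_part F.isLaw hB hA hc₀ hBA _ _ c1
  have c3 := CH_le_add hcl.nonneg (w J F) z (fun ω => (z' ω, y J F ω))
  have c4 : CH (Pool.Agent.H49.Ent.cond F.p B True) z (fun ω => (z' ω, y J F ω)) ≤
      CH (Pool.Agent.H49.Ent.cond F.p B True) z z' :=
    CH_mono_cond hcl.nonneg fun ω ω' _ _ h => (Prod.ext_iff.1 h).1
  have c5 : CH (Pool.Agent.H49.Ent.cond F.p B True) (w J F)
      (fun ω => (z ω, (z' ω, y J F ω))) ≤
      CH (Pool.Agent.H49.Ent.cond F.p B True) (w J F) (fun ω => ((z' ω, z ω), y J F ω)) := by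
    refine CH_mono_cond hcl.nonneg fun ω ω' _ _ h => ?_
    simp only [Prod.mk.injEq] at h ⊢
    tauto
  have e2 : 0 ≤ ε * (J : ℝ) := by positivity
  linarith

end

end Pool.STR91
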