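import Pool.Agent.H16.STR.Evp
import Pool.Agent.H91.STR.Fnum

/-!
# Own-point codes and codes at the start of the window

`ch_near`: near integer vectors. `hasse_le'`: the Taylor coefficients for `|ρ| ≤ 1`. `ow_st`,
`st_ow`: the own-point codes of polynomials along the lines and the codes of the coefficients at the
start of the window determine each other given the time, up to a bounded number of bits, if the
precision is increasing in the order. `mi_cv`: the input `mi'` of `few_ev2` from the inequality for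
the own-point digits.
-/

set_option autoImplicit false

namespace Pool.STR91

open Finset Real Polynomial
open Pool.Agent.H49.Ent Pool.Agent.H32.Dense Pool.STK Pool.KA Pool.KSAT Pool.K2S Pool.PB Pool.GEN
open Pool.T4E Pool.T4P Pool.STR16

/-- **Near integer vectors.** -/
theorem ch_near {Ω T ι : Type} [Fintype Ω] [Fintype ι] {p : Ω → ℝ} (hp : IsLaw p)
    (U : Ω → ι → ℤ) (V : Ω → T) {K : ℕ}
    (h : ∀ ω ω', 0 < p ω → 0 < p ω' → V ω = V ω' → ∀ i, |U ω i - U ω' i| ≤ K) :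
    CH p U V ≤ Fintype.card ι * Real.log (2 * K + 1) := by
  classical
  obtain ⟨F, hF⟩ : ∃ F : T → Finset (ι → ℤ), ∀ v, F v =
      if hv : ∃ ω, 0 < p ω ∧ V ω = v then Fintype.piFinset fun i =>
        Finset.Icc (U hv.choose i - K) (U hv.choose i + K) else {fun _ => 0} := ⟨_, fun _ => rfl⟩
  refine (CH_le_card hp.nonneg hp.sum_one U V F fun ω hω => ?_).trans ?_
  · have hv : ∃ ω', 0 < p ω' ∧ V ω' = V ω := ⟨ω, hω, rfl⟩
    rw [hF, dif_pos hv, Fintype.mem_piFinset]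
    intro i
    have h1 := abs_le.1 (h ω hv.choose hω hv.choose_spec.1 hv.choose_spec.2.symm i)
    rw [Finset.mem_Icc]
    constructor <;> linarith [h1.1, h1.2]
  · rw [← Ex_const hp.sum_one (Fintype.card ι * Real.log (2 * K + 1))]
    refine Ex_mono hp.nonneg fun ω hω => ?_
    have hv : ∃ ω', 0 < p ω' ∧ V ω' = V ω := ⟨ω, hω, rfl⟩
    rw [hF, dif_pos hv, Fintype.card_piFinset]
    have h2 : ∀ i ∈ (Finset.univ : Finset ι), (Finset.Icc (U hv.choose i - K)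
        (U hv.choose i + K)).card = 2 * K + 1 := by
      intro i _
      rw [Int.card_Icc]
      omega
    rw [Finset.prod_congr rfl h2, Finset.prod_const, Finset.card_univ]
    push_cast
    rw [Real.log_pow]

/-- The Taylor coefficients. -/
theorem hasse_le' {Q : Polynomial ℝ} {d k : ℕ} (hd : Q.natDegree ≤ d) {ρ : ℝ} (h1 : |ρ| ≤ 1)
    {s : ℝ} (hs : 0 ≤ s) (hQ : ∀ i, k < i → |Q.coeff i| ≤ s) :
    |(taylor ρ Q).coeff k - Q.coeff k| ≤ (d + 1) * 2 ^ d * s := by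
  rw [taylor_coeff, eval_eq_sum_range' (n := d + 1)
    (Nat.lt_succ_of_le ((natDegree_hasseDeriv_le Q k).trans (by omega))), Finset.sum_range_succ']
  have e0 : (hasseDeriv k Q).coeff 0 * ρ ^ 0 = Q.coeff k := by
    rw [hasseDeriv_coeff, pow_zero, mul_one, zero_add, Nat.choose_self, Nat.cast_one, one_mul]
  rw [e0, add_sub_cancel_right]
  have hb : ∀ i ∈ range d, |(hasseDeriv k Q).coeff (i + 1) * ρ ^ (i + 1)| ≤ 2 ^ d * s := by
    intro i _
    rw [hasseDeriv_coeff]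
    by_cases hi : i + 1 + k ≤ d
    · have c1 : (((i + 1 + k).choose k : ℕ) : ℝ) ≤ 2 ^ d := by
        have h2 : (i + 1 + k).choose k ≤ 2 ^ d :=
          (Nat.choose_le_two_pow _ _).trans (Nat.pow_le_pow_right (by norm_num) hi)
        exact_mod_cast h2
      have c2 := hQ (i + 1 + k) (by omega)
      have c3 : |ρ ^ (i + 1)| ≤ 1 := by
        rw [abs_pow]
        exact pow_le_one₀ (abs_nonneg _) h1
      rw [abs_mul, abs_mul, abs_of_nonneg (Nat.cast_nonneg _)]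
      calc (((i + 1 + k).choose k : ℕ) : ℝ) * |Q.coeff (i + 1 + k)| * |ρ ^ (i + 1)| ≤
            2 ^ d * s * 1 := by
              refine mul_le_mul (mul_le_mul c1 c2 (abs_nonneg _) (by positivity)) c3
                (abs_nonneg _) (by positivity)
        _ = _ := mul_one _
    · have c4 : Q.coeff (i + 1 + k) = 0 := coeff_eq_zero_of_natDegree_lt (by omega)
      rw [c4]
      simp only [mul_zero, zero_mul, abs_zero]
      positivity
  refine (Finset.abs_sum_le_sum_abs _ _).trans ((Finset.sum_le_sum hb).trans ?_)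
  rw [Finset.sum_const, card_range, nsmul_eq_mul]
  have h2 : 0 ≤ 2 ^ d * s := by positivity
  nlinarith

theorem fl_near2 {x y s : ℝ} (h : |x - y| ≤ s) : |((⌊x⌋ : ℤ) : ℝ) - ⌊y⌋| ≤ s + 1 := by
  have h1 := Int.floor_le x
  have h2 := Int.lt_floor_add_one x
  have h3 := Int.floor_le y
  have h4 := Int.lt_floor_add_one y
  rw [abs_le] at h ⊢
  constructor <;> linarith

/-- The bounded error. -/
def Kc (d : ℕ) : ℕ := 2 * ((d + 1) * 2 ^ d) + 6

variable {m J n : ℕ}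

/-- The codes of the coefficients at the start of the window, precision `G i k`. -/
noncomputable def stc {F : Fam m J} (P : LnT F → Fin n → Polynomial ℝ) (G : Fin n → ℕ → ℕ) (d : ℕ)
    (s : LnT F) (x : Fin n × Fin (d + 1)) : ℤ := ⌊(2 : ℝ) ^ G x.1 x.2 * (P s x.1).coeff x.2⌋

/-- The own-point codes. -/
noncomputable def owc {F : Fam m J} (P : LnT F → Fin n → Polynomial ℝ) (a : ℕ)
    (G : Fin n → ℕ → ℕ) (d : ℕ) (ω : F.Ω) (x : Fin n × Fin (d + 1)) : ℤ :=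
  ⌊(2 : ℝ) ^ G x.1 x.2 * (taylor (rho F a ω) (P (slam F a ω) x.1)).coeff x.2⌋

/-- The own-point digits of order `j`. -/
noncomputable def pO {F : Fam m J} (P : LnT F → Fin n → Polynomial ℝ) (a : ℕ) (g : Fin n → ℕ)
    (j : ℕ) (ω : F.Ω) (i : Fin n) : ℤ :=
  ⌊(2 : ℝ) ^ g i * (taylor (rho F a ω) (P (slam F a ω) i)).coeff j⌋

theorem rho_abs {F : Fam m J} {a : ℕ} (ω : F.Ω) : |rho F a ω| ≤ 1 := by
  obtain ⟨h1, h2⟩ := rho_mem (a := a) ω
  rw [abs_le]
  constructor <;> linarith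

theorem rho_eq {F : Fam m J} {a : ℕ} {ω ω' : F.Ω} (h : F.T ω = F.T ω') :
    rho F a ω = rho F a ω' := by
  unfold rho vtf
  rw [h]

/-- Two polynomials: from the coefficients to the Taylor coefficients, precision increasing. -/
theorem near_tay {A B : Polynomial ℝ} {d : ℕ} (hA : A.natDegree ≤ d) (hB : B.natDegree ≤ d)
    {ρ : ℝ} (hρ : |ρ| ≤ 1) {G : ℕ → ℕ} (hG : Monotone G) {s : ℝ} (hs : 0 ≤ s) (k : ℕ)
    (h : ∀ i, k ≤ i → |(2 : ℝ) ^ G i * A.coeff i - 2 ^ G i * B.coeff i| ≤ s) :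
    |(2 : ℝ) ^ G k * (taylor ρ A).coeff k - 2 ^ G k * (taylor ρ B).coeff k| ≤
      s + (d + 1) * 2 ^ d * s := by
  obtain ⟨Q, hQ⟩ : ∃ Q : Polynomial ℝ, Q = Polynomial.C ((2 : ℝ) ^ G k) * (A - B) := ⟨_, rfl⟩
  have hQd : Q.natDegree ≤ d := by
    rw [hQ]
    refine (natDegree_C_mul_le _ _).trans ((natDegree_sub_le _ _).trans ?_)
    exact max_le hA hB
  have hQc : ∀ i, Q.coeff i = 2 ^ G k * (A.coeff i - B.coeff i) := fun i => by
    rw [hQ, coeff_C_mul, coeff_sub]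
  have h1 : ∀ i, k ≤ i → |Q.coeff i| ≤ s := fun i hi => by
    refine le_trans ?_ (h i hi)
    rw [hQc, ← mul_sub, abs_mul, abs_mul]
    refine mul_le_mul_of_nonneg_right ?_ (abs_nonneg _)
    rw [abs_of_nonneg (by positivity), abs_of_nonneg (by positivity)]
    exact pow_le_pow_right₀ (by norm_num) (hG hi)
  have h2 := hasse_le' hQd hρ hs fun i hi => h1 i hi.le
  have h3 := h1 k le_rfl
  have e1 : (2 : ℝ) ^ G k * (taylor ρ A).coeff k - 2 ^ G k * (taylor ρ B).coeff k =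
      (taylor ρ Q).coeff k := by
    rw [hQ, taylor_mul, taylor_C, coeff_C_mul, map_sub, coeff_sub, mul_sub]
  rw [e1]
  have h4 := abs_add_le ((taylor ρ Q).coeff k - Q.coeff k) (Q.coeff k)
  rw [sub_add_cancel] at h4
  linarith

/-- **The own-point codes** given the codes at the start of the window and the time. -/
theorem ow_st {F : Fam m J} {a d : ℕ} {P : LnT F → Fin n → Polynomial ℝ} {p : F.Ω → ℝ}
    (hp : IsLaw p) {G : Fin n → ℕ → ℕ} (hG : ∀ i, Monotone (G i))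
    (hd : ∀ s i, (P s i).natDegree ≤ d) {V : Type} {Z : F.Ω → V}
    (hZ : ∀ ω ω', 0 < p ω → 0 < p ω' → Z ω = Z ω' → F.T ω = F.T ω' ∧
      stc P G d (slam F a ω) = stc P G d (slam F a ω')) :
    CH p (owc P a G d) Z ≤ Fintype.card (Fin n × Fin (d + 1)) * Real.log (2 * (Kc d : ℕ) + 1) := by
  refine ch_near hp _ _ fun ω ω' hω hω' h x => ?_
  obtain ⟨hT, hc⟩ := hZ ω ω' hω hω' h
  have h1 : ∀ i, (x.2 : ℕ) ≤ i → |(2 : ℝ) ^ G x.1 i * (P (slam F a ω) x.1).coeff i -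
      2 ^ G x.1 i * (P (slam F a ω') x.1).coeff i| ≤ 1 := fun i _ => by
    by_cases hi : i ≤ d
    · exact fl_near1 (congrFun hc (x.1, ⟨i, Nat.lt_succ_of_le hi⟩))
    · have e1 := coeff_eq_zero_of_natDegree_lt (p := P (slam F a ω) x.1) (n := i)
        (lt_of_le_of_lt (hd _ _) (by omega))
      have e2 := coeff_eq_zero_of_natDegree_lt (p := P (slam F a ω') x.1) (n := i)
        (lt_of_le_of_lt (hd _ _) (by omega))
      rw [e1, e2, mul_zero, sub_zero, abs_zero]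
      exact zero_le_one
  have h2 := near_tay (hd (slam F a ω) x.1) (hd (slam F a ω') x.1) (rho_abs (a := a) ω) (hG x.1)
    zero_le_one x.2 h1
  have h3 := fl_near2 h2
  unfold owc
  rw [← rho_eq (a := a) hT]
  have h4 : (1 : ℝ) + (d + 1) * 2 ^ d * 1 + 1 ≤ (Kc d : ℕ) := by
    unfold Kc
    push_cast
    have : (0 : ℝ) ≤ (d + 1) * 2 ^ d := by positivity
    linarith
  have h5 := h3.trans h4
  rw [← Int.cast_sub, ← Int.cast_abs] at h5
  exact_mod_cast h5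

/-- **The codes at the start of the window** given the own-point codes and the time. -/
theorem st_ow {F : Fam m J} {a d : ℕ} {P : LnT F → Fin n → Polynomial ℝ} {p : F.Ω → ℝ}
    (hp : IsLaw p) {G : Fin n → ℕ → ℕ} (hG : ∀ i, Monotone (G i))
    (hd : ∀ s i, (P s i).natDegree ≤ d) {V : Type} {Z : F.Ω → V}
    (hZ : ∀ ω ω', 0 < p ω → 0 < p ω' → Z ω = Z ω' → F.T ω = F.T ω' ∧
      owc P a G d ω = owc P a G d ω') :
    CH p (fun ω => stc P G d (slam F a ω)) Z ≤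
      Fintype.card (Fin n × Fin (d + 1)) * Real.log (2 * (Kc d : ℕ) + 1) := by
  refine ch_near hp _ _ fun ω ω' hω hω' h x => ?_
  obtain ⟨hT, hc⟩ := hZ ω ω' hω hω' h
  obtain ⟨A, hA⟩ : ∃ A, A = taylor (rho F a ω) (P (slam F a ω) x.1) := ⟨_, rfl⟩
  obtain ⟨B, hB⟩ : ∃ B, B = taylor (rho F a ω) (P (slam F a ω') x.1) := ⟨_, rfl⟩
  have hAd : A.natDegree ≤ d := by rw [hA, natDegree_taylor]; exact hd _ _
  have hBd : B.natDegree ≤ d := by rw [hB, natDegree_taylor]; exact hd _ _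
  have hA' : P (slam F a ω) x.1 = taylor (-rho F a ω) A := by
    rw [hA, taylor_taylor]
    simp
  have hB' : P (slam F a ω') x.1 = taylor (-rho F a ω) B := by
    rw [hB, taylor_taylor]
    simp
  have h1 : ∀ i, (x.2 : ℕ) ≤ i → |(2 : ℝ) ^ G x.1 i * A.coeff i -
      2 ^ G x.1 i * B.coeff i| ≤ 1 := fun i _ => by
    by_cases hi : i ≤ d
    · have h2 := congrFun hc (x.1, ⟨i, Nat.lt_succ_of_le hi⟩)
      unfold owc at h2
      rw [← rho_eq (a := a) hT, ← hA, ← hB] at h2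
      exact fl_near1 h2
    · have e1 := coeff_eq_zero_of_natDegree_lt (p := A) (n := i) (lt_of_le_of_lt hAd (by omega))
      have e2 := coeff_eq_zero_of_natDegree_lt (p := B) (n := i) (lt_of_le_of_lt hBd (by omega))
      rw [e1, e2, mul_zero, sub_zero, abs_zero]
      exact zero_le_one
  have hr : |-rho F a ω| ≤ 1 := by rw [abs_neg]; exact rho_abs ω
  have h2 := near_tay hAd hBd hr (hG x.1) zero_le_one x.2 h1
  rw [← hA', ← hB'] at h2
  have h3 := fl_near2 h2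
  unfold stc
  have h4 : (1 : ℝ) + (d + 1) * 2 ^ d * 1 + 1 ≤ (Kc d : ℕ) := by
    unfold Kc
    push_cast
    have : (0 : ℝ) ≤ (d + 1) * 2 ^ d := by positivity
    linarith
  have h5 := h3.trans h4
  rw [← Int.cast_sub, ← Int.cast_abs] at h5
  exact_mod_cast h5

/-! ### One order -/

/-- The pairs of points with the same time and the same higher orders. -/
theorem hi_near {F : Fam m J} {a d j : ℕ} {P : LnT F → Fin n → Polynomial ℝ} {g : Fin n → ℕ}
    (hd : ∀ s i, (P s i).natDegree ≤ d) {ω ω' : F.Ω} (hT : F.T ω = F.T ω')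
    (hH : pH P g j d (slam F a ω) = pH P g j d (slam F a ω')) (i : Fin n) :
    |(2 ^ g i * (taylor (rho F a ω) (P (slam F a ω) i)).coeff j -
        2 ^ g i * (taylor (rho F a ω') (P (slam F a ω') i)).coeff j) -
      (2 ^ g i * (P (slam F a ω) i).coeff j - 2 ^ g i * (P (slam F a ω') i).coeff j)| ≤
      ((d : ℝ) + 1) * 2 ^ d := by
  obtain ⟨Q, hQ⟩ : ∃ Q : Polynomial ℝ, Q = Polynomial.C ((2 : ℝ) ^ g i) *
      (P (slam F a ω) i - P (slam F a ω') i) := ⟨_, rfl⟩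
  have hQd : Q.natDegree ≤ d := by
    rw [hQ]
    refine (natDegree_C_mul_le _ _).trans ((natDegree_sub_le _ _).trans ?_)
    exact max_le (hd _ _) (hd _ _)
  have hQc : ∀ k, Q.coeff k = 2 ^ g i * (P (slam F a ω) i).coeff k -
      2 ^ g i * (P (slam F a ω') i).coeff k := fun k => by
    rw [hQ, coeff_C_mul, coeff_sub, mul_sub]
  have h1 : ∀ k, j < k → |Q.coeff k| ≤ 1 := fun k hk => by
    by_cases hkd : k ≤ d
    · have h1 := congrFun (congrFun hH i) ⟨k, Nat.lt_succ_of_le hkd⟩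
      unfold pH at h1
      simp only [if_pos hk] at h1
      rw [hQc]
      exact fl_near1 h1
    · rw [coeff_eq_zero_of_natDegree_lt (by omega), abs_zero]
      exact zero_le_one
  have h2 := hasse_le' hQd (rho_abs (a := a) ω) zero_le_one h1
  rw [← rho_eq (a := a) hT]
  have e1 : 2 ^ g i * (taylor (rho F a ω) (P (slam F a ω) i)).coeff j -
      2 ^ g i * (taylor (rho F a ω) (P (slam F a ω') i)).coeff j =
      (taylor (rho F a ω) Q).coeff j := by
    rw [hQ, taylor_mul, taylor_C, coeff_C_mul, map_sub, coeff_sub, mul_sub]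
  rw [e1, ← hQc, ← mul_one (((d : ℝ) + 1) * 2 ^ d)]
  exact h2

theorem cast_le_Kc {d : ℕ} {x y : ℤ} {s : ℝ} (h : |(x : ℝ) - y| ≤ s)
    (hs : s ≤ 2 * (((d : ℝ) + 1) * 2 ^ d) + 6) : |x - y| ≤ (Kc d : ℕ) := by
  have h5 : |(x : ℝ) - y| ≤ ((Kc d : ℕ) : ℝ) := by
    unfold Kc
    push_cast
    exact h.trans hs
  rw [← Int.cast_sub, ← Int.cast_abs] at h5
  exact_mod_cast h5

/-- The digits of order `j` at the start given the own-point ones, the higher orders, the time. -/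
theorem d_of_o {F : Fam m J} {a d j : ℕ} {P : LnT F → Fin n → Polynomial ℝ} {g : Fin n → ℕ}
    {p : F.Ω → ℝ} (hp : IsLaw p) (hd : ∀ s i, (P s i).natDegree ≤ d) {V : Type} {Z : F.Ω → V}
    (hZ : ∀ ω ω', 0 < p ω → 0 < p ω' → Z ω = Z ω' → F.T ω = F.T ω' ∧
      pH P g j d (slam F a ω) = pH P g j d (slam F a ω') ∧ pO P a g j ω = pO P a g j ω') :
    CH p (fun ω => pD P g j (slam F a ω)) Z ≤ n * Real.log (2 * (Kc d : ℕ) + 1) := by
  have h0 := ch_near hp (fun ω => pD P g j (slam F a ω)) Z (K := Kc d) fun ω ω' hω hω' h i => by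
    obtain ⟨hT, hH, hO⟩ := hZ ω ω' hω hω' h
    have h1 := hi_near hd hT hH i
    have h2 := fl_near1 (congrFun hO i)
    have h3 : |2 ^ g i * (P (slam F a ω) i).coeff j - 2 ^ g i * (P (slam F a ω') i).coeff j| ≤
        ((d : ℝ) + 1) * 2 ^ d + 1 := by
      rw [abs_le] at h1 h2 ⊢
      constructor <;> linarith [h1.1, h1.2, h2.1, h2.2]
    refine cast_le_Kc (fl_near2 h3) ?_
    have : (0 : ℝ) ≤ ((d : ℝ) + 1) * 2 ^ d := by positivity
    linarith
  rwa [Fintype.card_fin] at h0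

/-- The own-point digits given the ones at the start, the higher orders, the time. -/
theorem o_of_d {F : Fam m J} {a d j : ℕ} {P : LnT F → Fin n → Polynomial ℝ} {g : Fin n → ℕ}
    {p : F.Ω → ℝ} (hp : IsLaw p) (hd : ∀ s i, (P s i).natDegree ≤ d) {V : Type} {Z : F.Ω → V}
    (hZ : ∀ ω ω', 0 < p ω → 0 < p ω' → Z ω = Z ω' → F.T ω = F.T ω' ∧
      pH P g j d (slam F a ω) = pH P g j d (slam F a ω') ∧
      pD P g j (slam F a ω) = pD P g j (slam F a ω')) :
    CH p (pO P a g j) Z ≤ n * Real.log (2 * (Kc d : ℕ) + 1) := by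
  have h0 := ch_near hp (pO P a g j) Z (K := Kc d) fun ω ω' hω hω' h i => by
    obtain ⟨hT, hH, hO⟩ := hZ ω ω' hω hω' h
    have h1 := hi_near hd hT hH i
    have h2 := fl_near1 (congrFun hO i)
    have h3 : |2 ^ g i * (taylor (rho F a ω) (P (slam F a ω) i)).coeff j -
        2 ^ g i * (taylor (rho F a ω') (P (slam F a ω') i)).coeff j| ≤
        ((d : ℝ) + 1) * 2 ^ d + 1 := by
      rw [abs_le] at h1 h2 ⊢
      constructor <;> linarith [h1.1, h1.2, h2.1, h2.2]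
    refine cast_le_Kc (fl_near2 h3) ?_
    have : (0 : ℝ) ≤ ((d : ℝ) + 1) * 2 ^ d := by positivity
    linarith
  rwa [Fintype.card_fin] at h0

/-- Upper digits of near integers. -/
theorem near_up' {x y z w M : ℤ} {s : ℝ} (h : |((x : ℝ) - y) - (z - w)| ≤ s) (hs : 0 ≤ s)
    (pm : 0 < M) (hzw : z / M = w / M) :
    |((x / M : ℤ) : ℝ) - ((y / M : ℤ) : ℝ)| ≤ s + 3 := by
  have pr : (1 : ℝ) ≤ (M : ℝ) := by exact_mod_cast pm
  have e4 := near_of_div pm hzw
  have e5 : |((z : ℝ) - w)| ≤ (M : ℝ) := by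
    rw [← Int.cast_sub, ← Int.cast_abs]
    exact_mod_cast e4
  have a1 := Int.mul_ediv_add_emod x M
  have a2 := Int.emod_nonneg x pm.ne'
  have a3 := Int.emod_lt_of_pos x pm
  have b1 := Int.mul_ediv_add_emod y M
  have b2 := Int.emod_nonneg y pm.ne'
  have b3 := Int.emod_lt_of_pos y pm
  have a1' : (M : ℝ) * ((x / M : ℤ) : ℝ) + ((x % M : ℤ) : ℝ) = x := by exact_mod_cast a1
  have a2' : (0 : ℝ) ≤ ((x % M : ℤ) : ℝ) := by exact_mod_cast a2
  have a3' : ((x % M : ℤ) : ℝ) ≤ M := by exact_mod_cast a3.le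
  have b1' : (M : ℝ) * ((y / M : ℤ) : ℝ) + ((y % M : ℤ) : ℝ) = y := by exact_mod_cast b1
  have b2' : (0 : ℝ) ≤ ((y % M : ℤ) : ℝ) := by exact_mod_cast b2
  have b3' : ((y % M : ℤ) : ℝ) ≤ M := by exact_mod_cast b3.le
  have hM0 : (0 : ℝ) < M := by linarith
  have c1 : |(M : ℝ) * (((x / M : ℤ) : ℝ) - ((y / M : ℤ) : ℝ))| ≤ M * (s + 3) := by
    have c2 : (M : ℝ) * (((x / M : ℤ) : ℝ) - ((y / M : ℤ) : ℝ)) =
        ((x : ℝ) - y - (z - w)) + ((z : ℝ) - w) - (((x % M : ℤ) : ℝ) - ((y % M : ℤ) : ℝ)) := by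
      linarith
    rw [c2]
    have c3 : s ≤ M * s := by nlinarith
    rw [abs_le] at h e5 ⊢
    constructor <;> linarith [h.1, h.2, e5.1, e5.2]
  rw [abs_mul, abs_of_pos hM0] at c1
  exact le_of_mul_le_mul_left c1 hM0

theorem near_up {x y z w : ℤ} {q : ℕ} {s : ℝ} (h : |((x : ℝ) - y) - (z - w)| ≤ s) (hs : 0 ≤ s)
    (hzw : z / ((2 ^ q : ℕ) : ℤ) = w / ((2 ^ q : ℕ) : ℤ)) :
    |((x / ((2 ^ q : ℕ) : ℤ) : ℤ) : ℝ) - ((y / ((2 ^ q : ℕ) : ℤ) : ℤ) : ℝ)| ≤ s + 3 :=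
  near_up' h hs (by positivity) hzw

theorem fl_diff {A B C D s : ℝ} (h : |(A - B) - (C - D)| ≤ s) :
    |(((⌊A⌋ : ℤ) : ℝ) - (⌊B⌋ : ℤ)) - (((⌊C⌋ : ℤ) : ℝ) - (⌊D⌋ : ℤ))| ≤ s + 2 := by
  have a1 := Int.floor_le A
  have a2 := Int.lt_floor_add_one A
  have b1 := Int.floor_le B
  have b2 := Int.lt_floor_add_one B
  have c1 := Int.floor_le C
  have c2 := Int.lt_floor_add_one C
  have d1 := Int.floor_le D
  have d2 := Int.lt_floor_add_one D
  rw [abs_le] at h ⊢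
  constructor <;> linarith [h.1, h.2]

/-- The upper digits at the start given the own-point ones. -/
theorem du_of_ou {F : Fam m J} {a d j q : ℕ} {P : LnT F → Fin n → Polynomial ℝ} {g : Fin n → ℕ}
    {p : F.Ω → ℝ} (hp : IsLaw p) (hd : ∀ s i, (P s i).natDegree ≤ d) {V : Type} {Z : F.Ω → V}
    (hZ : ∀ ω ω', 0 < p ω → 0 < p ω' → Z ω = Z ω' → F.T ω = F.T ω' ∧
      pH P g j d (slam F a ω) = pH P g j d (slam F a ω') ∧
      (fun i => pO P a g j ω i / ((2 ^ q : ℕ) : ℤ)) = fun i => pO P a g j ω' i / ((2 ^ q : ℕ) : ℤ)) :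
    CH p (fun ω i => pD P g j (slam F a ω) i / ((2 ^ q : ℕ) : ℤ)) Z ≤
      n * Real.log (2 * (Kc d : ℕ) + 1) := by
  have h0 := ch_near hp (fun ω i => pD P g j (slam F a ω) i / ((2 ^ q : ℕ) : ℤ)) Z (K := Kc d)
    fun ω ω' hω hω' h i => by
    obtain ⟨hT, hH, hO⟩ := hZ ω ω' hω hω' h
    have h1 := hi_near hd hT hH i
    have h2 : |(2 ^ g i * (P (slam F a ω) i).coeff j - 2 ^ g i * (P (slam F a ω') i).coeff j) -
        (2 ^ g i * (taylor (rho F a ω) (P (slam F a ω) i)).coeff j -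
        2 ^ g i * (taylor (rho F a ω') (P (slam F a ω') i)).coeff j)| ≤
        ((d : ℝ) + 1) * 2 ^ d := by
      rw [abs_sub_comm]
      exact h1
    have h3 := near_up (fl_diff h2) (by positivity) (congrFun hO i)
    refine cast_le_Kc h3 ?_
    have : (0 : ℝ) ≤ ((d : ℝ) + 1) * 2 ^ d := by positivity
    linarith
  rwa [Fintype.card_fin] at h0

/-- The own-point upper digits given the ones at the start. -/
theorem ou_of_du {F : Fam m J} {a d j q : ℕ} {P : LnT F → Fin n → Polynomial ℝ} {g : Fin n → ℕ}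
    {p : F.Ω → ℝ} (hp : IsLaw p) (hd : ∀ s i, (P s i).natDegree ≤ d) {V : Type} {Z : F.Ω → V}
    (hZ : ∀ ω ω', 0 < p ω → 0 < p ω' → Z ω = Z ω' → F.T ω = F.T ω' ∧
      pH P g j d (slam F a ω) = pH P g j d (slam F a ω') ∧
      (fun i => pD P g j (slam F a ω) i / ((2 ^ q : ℕ) : ℤ)) =
        fun i => pD P g j (slam F a ω') i / ((2 ^ q : ℕ) : ℤ)) :
    CH p (fun ω i => pO P a g j ω i / ((2 ^ q : ℕ) : ℤ)) Z ≤
      n * Real.log (2 * (Kc d : ℕ) + 1) := by
  have h0 := ch_near hp (fun ω i => pO P a g j ω i / ((2 ^ q : ℕ) : ℤ)) Z (K := Kc d)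
    fun ω ω' hω hω' h i => by
    obtain ⟨hT, hH, hO⟩ := hZ ω ω' hω hω' h
    have h1 := hi_near hd hT hH i
    have h3 := near_up (fl_diff h1) (by positivity) (congrFun hO i)
    refine cast_le_Kc h3 ?_
    have : (0 : ℝ) ≤ ((d : ℝ) + 1) * 2 ^ d := by positivity
    linarith
  rwa [Fintype.card_fin] at h0

/-! ### The input `mi'` -/

/-- A chain of two variables. -/
theorem ch_via {Ω A B V : Type} [Fintype Ω] {p : Ω → ℝ} (h0 : ∀ ω, 0 ≤ p ω) (X : Ω → A) (Y : Ω → B)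
    (Z : Ω → V) {c : ℝ} (h : CH p Y Z ≤ c) : CH p X Z ≤ CH p X (fun ω => (Y ω, Z ω)) + c := by
  have := CH_le_add h0 X Y Z
  linarith

/-- **The input `mi'` of `few_ev2`** from the inequality `num` for the own-point digits. `za`: the
record of the window of the base, `zb`: the finer one; `y`: the side path with the time and the side
variable. -/
theorem mi_cv {F : Fam m J} {a d q j : ℕ} {P : LnT F → Fin n → Polynomial ℝ} {p : F.Ω → ℝ}
    {g : Fin n → ℕ} {κ κ' 𝒴 γ : Type} {za : LnT F → κ} {zb : F.Ω → κ'} {Cy : LnT F → 𝒴}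
    {y : F.Ω → γ} {e e' e'' ε : ℝ} (hp : IsLaw p) (ha : a ≤ J)
    (hd : ∀ s i, (P s i).natDegree ≤ d)
    (full : J * Real.log 2 - e ≤ CH p F.T (fun ω => (F.l ω, F.Z ω)))
    (hyT : ∀ ω ω', 0 < p ω → 0 < p ω' → y ω = y ω' → F.T ω = F.T ω' ∧ F.Z ω = F.Z ω')
    (y1 : CH p (fun ω => Cy (slam F a ω)) y ≤ e'')
    (y2 : CH p y (fun ω => (Cy (slam F a ω), (F.T ω, F.Z ω))) ≤ e'')
    (ha1 : CH p (fun ω => pH P g j d (slam F a ω)) (fun ω => (za (slam F a ω), y ω)) ≤ e')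
    (hb1 : CH p (fun ω => pH P g j d (slam F a ω)) (fun ω => (zb ω, y ω)) ≤ e')
    (num : CH p (pO P a g j)
        (fun ω => ((fun i => pO P a g j ω i / ((2 ^ q : ℕ) : ℤ)), (za (slam F a ω), y ω))) ≤
      CH p (pO P a g j)
        (fun ω => ((fun i => pO P a g j ω i / ((2 ^ q : ℕ) : ℤ)), (zb ω, y ω))) + ε) :
    CH p (fun ω => pD P g j (slam F a ω)) (fun ω => (Cy (slam F a ω), (za (slam F a ω),
        ((fun i => pD P g j (slam F a ω) i / ((2 ^ q : ℕ) : ℤ)), (slam F a ω).2)))) -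
      (e + 2 * e' + 2 * e'' + ε + 4 * (n * Real.log (2 * (Kc d : ℕ) + 1))) ≤
    CH p (fun ω => pD P g j (slam F a ω)) (fun ω => ((zb ω,
        ((fun i => pD P g j (slam F a ω) i / ((2 ^ q : ℕ) : ℤ)), F.Z ω)),
        (Cy (slam F a ω), F.T ω))) := by
  have h0 := hp.nonneg
  obtain ⟨c, hc⟩ : ∃ c : ℝ, c = n * Real.log (2 * (Kc d : ℕ) + 1) := ⟨_, rfl⟩
  rw [← hc]
  obtain ⟨D, hD⟩ : ∃ D : F.Ω → Fin n → ℤ, D = fun ω => pD P g j (slam F a ω) := ⟨_, rfl⟩
  obtain ⟨Du, hDu⟩ : ∃ Du : F.Ω → Fin n → ℤ, Du = fun ω i =>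
    pD P g j (slam F a ω) i / ((2 ^ q : ℕ) : ℤ) := ⟨_, rfl⟩
  obtain ⟨O, hO⟩ : ∃ O : F.Ω → Fin n → ℤ, O = pO P a g j := ⟨_, rfl⟩
  obtain ⟨Ou, hOu⟩ : ∃ Ou : F.Ω → Fin n → ℤ, Ou = fun ω i =>
    pO P a g j ω i / ((2 ^ q : ℕ) : ℤ) := ⟨_, rfl⟩
  obtain ⟨H, hH⟩ : ∃ H : F.Ω → Fin n → Fin (d + 1) → ℤ, H = fun ω => pH P g j d (slam F a ω) :=
    ⟨_, rfl⟩
  obtain ⟨A, hA⟩ : ∃ A : F.Ω → κ, A = fun ω => za (slam F a ω) := ⟨_, rfl⟩
  obtain ⟨C, hC⟩ : ∃ C : F.Ω → 𝒴, C = fun ω => Cy (slam F a ω) := ⟨_, rfl⟩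
  have sw : ∀ {X Y V : Type} (x : F.Ω → X) (y : F.Ω → Y) (z : F.Ω → V),
      CH p y z + CH p x (fun ω => (y ω, z ω)) = CH p x z + CH p y (fun ω => (x ω, z ω)) := by
    intro X Y V x y z
    rw [← CH_chain h0, ← CH_chain h0]
    refine CH_congr h0 ?_ ?_ (fun _ _ _ _ h => h) (fun _ _ _ _ h => h) <;>
    · intro ω ω' _ _ h
      simp only [Prod.mk.injEq] at h ⊢
      tauto
  -- the time
  have t1 : CH p (fun ω => pD P g j (slam F a ω)) (fun ω => (Cy (slam F a ω), (za (slam F a ω),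
        ((fun i => pD P g j (slam F a ω) i / ((2 ^ q : ℕ) : ℤ)), (slam F a ω).2)))) ≤
      CH p D (fun ω => (F.T ω, (C ω, (A ω, (Du ω, (slam F a ω).2))))) + e := by
    obtain ⟨W, hW⟩ : ∃ W : F.Ω → 𝒴 × (κ × ((Fin n → ℤ) × (F.ζ × ℕ))), W = fun ω =>
      (C ω, (A ω, (Du ω, (slam F a ω).2))) := ⟨_, rfl⟩
    have e1 : CH p (fun ω => pD P g j (slam F a ω)) (fun ω => (Cy (slam F a ω), (za (slam F a ω),
        ((fun i => pD P g j (slam F a ω) i / ((2 ^ q : ℕ) : ℤ)), (slam F a ω).2)))) = CH p D W := by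
      rw [hD, hW, hC, hA, hDu]
    have e7 : CH p D (fun ω => (F.T ω, (C ω, (A ω, (Du ω, (slam F a ω).2))))) =
        CH p D (fun ω => (F.T ω, W ω)) := by rw [hW]
    rw [e1, e7]
    have e2 := sw D (fun ω => F.T ω % 2 ^ (J - a)) W
    have e3 : CH p (fun ω => F.T ω % 2 ^ (J - a)) W ≤ ((J : ℝ) - a) * Real.log 2 := by
      refine (CH_le_card h0 hp.sum_one _ W (fun _ => Finset.range (2 ^ (J - a)))
        fun ω _ => Finset.mem_range.2 (Nat.mod_lt _ (by positivity))).trans ?_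
      rw [← Ex_const hp.sum_one (((J : ℝ) - a) * Real.log 2)]
      refine Ex_mono h0 fun ω _ => ?_
      rw [Finset.card_range]
      push_cast
      rw [Real.log_pow, Nat.cast_sub ha]
    have e4 := full_evt hp ha full
    have e5 : CH p (fun ω => F.T ω % 2 ^ (J - a)) (slam F a) ≤
        CH p (fun ω => F.T ω % 2 ^ (J - a)) (fun ω => (D ω, W ω)) :=
      CH_mono_cond h0 fun ω ω' _ _ h => by
        rw [hD, hW, hC, hA, hDu]
        simp only [h]
    have e6 : CH p D (fun ω => (F.T ω % 2 ^ (J - a), W ω)) ≤ CH p D (fun ω => (F.T ω, W ω)) := by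
      refine CH_mono_cond h0 fun ω ω' _ _ h => ?_
      obtain ⟨h1, h2⟩ := Prod.ext_iff.1 h
      have h1' : F.T ω % 2 ^ (J - a) = F.T ω' % 2 ^ (J - a) := h1
      have h2' : W ω = W ω' := h2
      have h3 : F.T ω / 2 ^ (J - a) = F.T ω' / 2 ^ (J - a) := by
        have h4 := h2'
        rw [hW] at h4
        simp only [Prod.mk.injEq] at h4
        exact (Prod.ext_iff.1 h4.2.2.2).2
      refine Prod.ext ?_ h2
      show F.T ω = F.T ω'
      rw [← Nat.div_add_mod (F.T ω) (2 ^ (J - a)), ← Nat.div_add_mod (F.T ω') (2 ^ (J - a)),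
        h1', h3]
    linarith
  -- from the side code to `y`
  have t2 : CH p D (fun ω => (F.T ω, (C ω, (A ω, (Du ω, (slam F a ω).2))))) ≤
      CH p D (fun ω => (Du ω, (A ω, y ω))) + e'' := by
    have h1 := ch_via h0 D y (fun ω => (F.T ω, (C ω, (A ω, (Du ω, (slam F a ω).2))))) (c := e'')
      ((CH_mono_cond h0 fun ω ω' _ _ h => by
        rw [hC] at h
        simp only [Prod.mk.injEq] at h ⊢
        exact ⟨h.2.1, h.1, (Prod.ext_iff.1 h.2.2.2.2).1⟩).trans y2)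
    refine h1.trans (add_le_add (CH_mono_cond h0 fun ω ω' _ _ h => ?_) le_rfl)
    simp only [Prod.mk.injEq] at h ⊢
    exact ⟨h.2.2.2.2.1, h.2.2.2.1, h.1⟩
  have t3 : CH p D (fun ω => (Du ω, (A ω, y ω))) ≤
      CH p D (fun ω => (H ω, (Du ω, (A ω, y ω)))) + e' :=
    ch_via h0 D H _ ((CH_mono_cond h0 fun ω ω' _ _ h => (Prod.ext_iff.1 h).2).trans (by
      rw [hH, hA]
      exact ha1))
  have t4 : CH p D (fun ω => (H ω, (Du ω, (A ω, y ω)))) ≤
      CH p O (fun ω => (H ω, (Du ω, (A ω, y ω)))) + c := by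
    have h1 := CH_le_add h0 D O (fun ω => (H ω, (Du ω, (A ω, y ω))))
    have h2 : CH p D (fun ω => (O ω, (H ω, (Du ω, (A ω, y ω))))) ≤ c := by
      rw [hc, hD]
      refine d_of_o hp hd fun ω ω' hω hω' h => ?_
      rw [hO, hH] at h
      simp only [Prod.mk.injEq] at h
      exact ⟨(hyT ω ω' hω hω' h.2.2.2.2).1, h.2.1, h.1⟩
    linarith
  have t5 : CH p O (fun ω => (H ω, (Du ω, (A ω, y ω)))) ≤
      CH p O (fun ω => (Ou ω, (A ω, y ω))) + c := by
    have h1 := ch_via h0 O Ou (fun ω => (H ω, (Du ω, (A ω, y ω)))) (c := c) (by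
      rw [hc, hOu]
      refine ou_of_du hp hd fun ω ω' hω hω' h => ?_
      rw [hDu, hH] at h
      simp only [Prod.mk.injEq] at h
      exact ⟨(hyT ω ω' hω hω' h.2.2.2).1, h.1, h.2.1⟩)
    refine h1.trans (add_le_add (CH_mono_cond h0 fun ω ω' _ _ h => ?_) le_rfl)
    simp only [Prod.mk.injEq] at h ⊢
    exact ⟨h.1, h.2.2.2.1, h.2.2.2.2⟩
  have t6 : CH p O (fun ω => (Ou ω, (A ω, y ω))) ≤ CH p O (fun ω => (Ou ω, (zb ω, y ω))) + ε := by
    rw [hO, hOu, hA]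
    exact num
  -- at the finer record
  have u1 : CH p O (fun ω => (Ou ω, (zb ω, y ω))) ≤
      CH p O (fun ω => (H ω, (Ou ω, (zb ω, y ω)))) + e' :=
    ch_via h0 O H _ ((CH_mono_cond h0 fun ω ω' _ _ h => (Prod.ext_iff.1 h).2).trans (by
      rw [hH]
      exact hb1))
  have u2 : CH p O (fun ω => (H ω, (Ou ω, (zb ω, y ω)))) ≤
      CH p D (fun ω => (H ω, (Ou ω, (zb ω, y ω)))) + c := by
    have h1 := CH_le_add h0 O D (fun ω => (H ω, (Ou ω, (zb ω, y ω))))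
    have h2 : CH p O (fun ω => (D ω, (H ω, (Ou ω, (zb ω, y ω))))) ≤ c := by
      rw [hc, hO]
      refine o_of_d hp hd fun ω ω' hω hω' h => ?_
      rw [hD, hH] at h
      simp only [Prod.mk.injEq] at h
      exact ⟨(hyT ω ω' hω hω' h.2.2.2.2).1, h.2.1, h.1⟩
    linarith
  have u3 : CH p D (fun ω => (H ω, (Ou ω, (zb ω, y ω)))) ≤
      CH p D (fun ω => (Du ω, (zb ω, y ω))) + c := by
    have h1 := ch_via h0 D Du (fun ω => (H ω, (Ou ω, (zb ω, y ω)))) (c := c) (by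
      rw [hc, hDu]
      refine du_of_ou hp hd fun ω ω' hω hω' h => ?_
      rw [hOu, hH] at h
      simp only [Prod.mk.injEq] at h
      exact ⟨(hyT ω ω' hω hω' h.2.2.2).1, h.1, h.2.1⟩)
    refine h1.trans (add_le_add (CH_mono_cond h0 fun ω ω' _ _ h => ?_) le_rfl)
    simp only [Prod.mk.injEq] at h ⊢
    exact ⟨h.1, h.2.2.2.1, h.2.2.2.2⟩
  have u4 : CH p D (fun ω => (Du ω, (zb ω, y ω))) ≤
      CH p D (fun ω => ((zb ω, (Du ω, F.Z ω)), (C ω, F.T ω))) + e'' := by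
    have h1 := ch_via h0 D C (fun ω => (Du ω, (zb ω, y ω))) (c := e'')
      ((CH_mono_cond h0 fun ω ω' _ _ h => (Prod.ext_iff.1 (Prod.ext_iff.1 h).2).2).trans (by
        rw [hC]
        exact y1))
    refine h1.trans (add_le_add (CH_mono_cond h0 fun ω ω' hω hω' h => ?_) le_rfl)
    simp only [Prod.mk.injEq] at h ⊢
    obtain ⟨k1, k2⟩ := hyT ω ω' hω hω' h.2.2.2
    exact ⟨⟨h.2.2.1, h.2.1, k2⟩, h.1, k1⟩
  have u5 : CH p D (fun ω => ((zb ω, (Du ω, F.Z ω)), (C ω, F.T ω))) =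
      CH p (fun ω => pD P g j (slam F a ω)) (fun ω => ((zb ω,
        ((fun i => pD P g j (slam F a ω) i / ((2 ^ q : ℕ) : ℤ)), F.Z ω)),
        (Cy (slam F a ω), F.T ω))) := by
    rw [hD, hDu, hC]
  rw [← u5]
  linarith

/-! ### The digits of the own-point jets -/

/-- The own-point digits are the digits of the own-point jet `v` in the unnormalised time. -/
theorem pO_dg {v : ∀ (J : ℕ) (F : Fam m J), F.Ω → Fin n → ℝ} {F : Fam m J}
    {P : LnT F → Fin n → Polynomial ℝ} {a j : ℕ} {e : ℕ → ℕ} {ω : F.Ω}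
    (hv : ∀ i, v J F ω i = 2 ^ (a * j) * (taylor (rho F a ω) (P (slam F a ω) i)).coeff j) :
    pO P a (fun _ => e J + a * j) j ω = dg v e J F ω := by
  funext i
  unfold pO dg
  rw [hv i, pow_add, mul_assoc]

/-- The upper digits. -/
theorem pO_dg_div {v : ∀ (J : ℕ) (F : Fam m J), F.Ω → Fin n → ℝ} {F : Fam m J}
    {P : LnT F → Fin n → Polynomial ℝ} {a j : ℕ} {e e' : ℕ → ℕ} (he : e J ≤ e' J) {ω : F.Ω}
    (hv : ∀ i, v J F ω i = 2 ^ (a * j) * (taylor (rho F a ω) (P (slam F a ω) i)).coeff j) :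
    (fun i => pO P a (fun _ => e' J + a * j) j ω i / ((2 ^ (e' J - e J) : ℕ) : ℤ)) =
      dg v e J F ω := by
  funext i
  rw [pO_dg hv]
  exact (dg_div v he F ω i).symm

end Pool.STR91
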